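import Mathlib
import Pool.Agent.TH310.Cor.Red
import Pool.Agent.Y263.GF.Fib

/-!
Automorphisms of the ball of `ℂ^m` are projective: they map the points `z`, `z'` to points whose
difference is a multiple of the derivative at `z` in the direction `z' - z`. Hence composition with
an automorphism preserves the functions with affine fibres.
-/

set_option autoImplicit false

open Metric Set Filter Topology

namespace Pool.Agent.X882.MG

open Pool.Agent.TH310.Cor (V Aut aut_mv HB)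
open Pool.Agent.W732.Cor (mv S_mv)
open Pool.Agent.Y263.GF (AF)

variable {m : ℕ}

/-- projective maps -/
def Pr (θ : V m → V m) : Prop :=
  ∀ z ∈ ball (0 : V m) 1, ∀ z' ∈ ball (0 : V m) 1, ∃ c : ℂ, c ≠ 0 ∧
    θ z' - θ z = c • fderiv ℂ θ z (z' - z)

theorem Pr.congr {θ η : V m → V m} (h : Pr θ) (he : EqOn θ η (ball 0 1)) : Pr η := by
  intro z hz z' hz'
  obtain ⟨c, hc, h1⟩ := h z hz z' hz'
  refine ⟨c, hc, ?_⟩
  have h2 : θ =ᶠ[𝓝 z] η := by
    filter_upwards [isOpen_ball.mem_nhds hz] with x hx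
    exact he hx
  rw [← he hz, ← he hz', h1, h2.fderiv_eq]

theorem Pr.comp {θ η : V m → V m} (h : Pr θ) (h' : Pr η) (hd : DifferentiableOn ℂ θ (ball 0 1))
    (hd' : DifferentiableOn ℂ η (ball 0 1)) (hm : MapsTo η (ball 0 1) (ball 0 1)) :
    Pr (fun z => θ (η z)) := by
  intro z hz z' hz'
  obtain ⟨c, hc, h1⟩ := h _ (hm hz) _ (hm hz')
  obtain ⟨d, hd0, h2⟩ := h' z hz z' hz'
  refine ⟨c * d, mul_ne_zero hc hd0, ?_⟩
  have h3 : fderiv ℂ (fun z => θ (η z)) z = (fderiv ℂ θ (η z)).comp (fderiv ℂ η z) :=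
    fderiv_comp z (hd.differentiableAt (isOpen_ball.mem_nhds (hm hz)))
      (hd'.differentiableAt (isOpen_ball.mem_nhds hz))
  rw [h1, h2, h3, map_smul, smul_smul]
  rfl

/-- linear fractional maps are projective -/
theorem frac_Pr (A : V m →L[ℂ] V m) (v : V m) (β : V m →L[ℂ] ℂ) (b : ℂ)
    (hne : ∀ z ∈ ball (0 : V m) 1, β z + b ≠ 0) : Pr (fun z => (β z + b)⁻¹ • (A z + v)) := by
  intro z hz z' hz'
  have h1 := hne z hz
  have h2 := hne z' hz'
  refine ⟨(β z + b) / (β z' + b), div_ne_zero h1 h2, ?_⟩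
  have hd1 : HasFDerivAt (fun z => A z + v) A z := A.hasFDerivAt.add_const v
  have hd2 : HasFDerivAt (fun z => β z + b) β z := β.hasFDerivAt.add_const b
  have hd3 : HasFDerivAt (fun z => (β z + b)⁻¹) (-((β z + b) ^ 2)⁻¹ • β) z := by
    have h4 := (hasDerivAt_inv h1).comp_hasFDerivAt z hd2
    exact h4
  have hd4 := hd3.smul hd1
  have hd5 : HasFDerivAt (fun z => (β z + b)⁻¹ • (A z + v)) ((β z + b)⁻¹ • A +
      (-((β z + b) ^ 2)⁻¹ • β).smulRight (A z + v)) z := hd4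
  rw [hd5.fderiv]
  simp only [add_apply, smul_apply, ContinuousLinearMap.smulRight_apply, smul_eq_mul]
  rw [map_sub, map_sub]
  obtain ⟨x, hx⟩ : ∃ x, x = A z := ⟨_, rfl⟩
  obtain ⟨x', hx'⟩ : ∃ x', x' = A z' := ⟨_, rfl⟩
  obtain ⟨s, hs⟩ : ∃ s, s = β z := ⟨_, rfl⟩
  obtain ⟨s', hs'⟩ : ∃ s', s' = β z' := ⟨_, rfl⟩
  rw [← hs] at h1
  rw [← hs'] at h2
  rw [← hx, ← hx', ← hs, ← hs']
  have e1 : (s' + b)⁻¹ • (x' + v) - (s + b)⁻¹ • (x + v) =
      (s' + b)⁻¹ • x' - (s + b)⁻¹ • x + ((s' + b)⁻¹ - (s + b)⁻¹) • v := by module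
  have e2 : ((s + b) / (s' + b)) • ((s + b)⁻¹ • (x' - x) +
      (-((s + b) ^ 2)⁻¹ * (s' - s)) • (x + v)) =
      ((s + b) / (s' + b) * (s + b)⁻¹) • x' +
      ((s + b) / (s' + b) * (-((s + b) ^ 2)⁻¹ * (s' - s)) - (s + b) / (s' + b) * (s + b)⁻¹) • x +
      ((s + b) / (s' + b) * (-((s + b) ^ 2)⁻¹ * (s' - s))) • v := by module
  rw [e1, e2]
  have c1 : (s + b) / (s' + b) * (s + b)⁻¹ = (s' + b)⁻¹ := by field_simp
  have c2 : (s + b) / (s' + b) * (-((s + b) ^ 2)⁻¹ * (s' - s)) = (s' + b)⁻¹ - (s + b)⁻¹ := by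
    field_simp
    ring
  rw [c1, c2]
  module

theorem mv_Pr (p : V m) (hp : ‖p‖ = 1) {a : ℂ} (ha : a ∈ ball (0 : ℂ) 1) : Pr (mv p a) := by
  have hne : ∀ z ∈ ball (0 : V m) 1, ((starRingEnd ℂ a) • innerSL ℂ p) z + 1 ≠ 0 := by
    intro z hz h0
    have h1 : (starRingEnd ℂ a) * inner ℂ p z = -1 := by
      have h2 : (starRingEnd ℂ a) * inner ℂ p z + 1 = 0 := h0
      linear_combination h2
    have h2 : ‖(starRingEnd ℂ a) * inner ℂ p z‖ = 1 := by rw [h1]; simp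
    rw [norm_mul, RCLike.norm_conj] at h2
    have h3 : ‖(inner ℂ p z : ℂ)‖ ≤ 1 * ‖z‖ := by
      rw [← hp]; exact norm_inner_le_norm p z
    rw [mem_ball_zero_iff] at ha hz
    nlinarith [norm_nonneg a, norm_nonneg (inner ℂ p z : ℂ)]
  have h1 := frac_Pr ((((1 - (√(1 - ‖a‖ ^ 2) : ℝ) : ℂ)) • (innerSL ℂ p).smulRight p) +
    (((√(1 - ‖a‖ ^ 2) : ℝ) : ℂ)) • ContinuousLinearMap.id ℂ (V m)) (a • p)
    ((starRingEnd ℂ a) • innerSL ℂ p) 1 hne
  refine h1.congr ?_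
  intro z _
  simp only [add_apply, smul_apply, ContinuousLinearMap.smulRight_apply,
    ContinuousLinearMap.id_apply, innerSL_apply_apply, mv, smul_eq_mul]
  rw [one_div, add_comm (starRingEnd ℂ a * inner ℂ p z) 1]
  congr 1
  module

/-- automorphisms which fix the origin are linear (H. Cartan) -/
theorem cartan {ψ φ : V m → V m} (h : Aut ψ φ) (h0 : ψ 0 = 0) :
    ∀ z ∈ ball (0 : V m) 1, ψ z = fderiv ℂ ψ 0 z := by
  have hφ0 : φ 0 = 0 := by
    have := h.i1 0 (mem_ball_self one_pos)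
    rwa [h0] at this
  have hn : ∀ z ∈ ball (0 : V m) 1, ‖ψ z‖ = ‖z‖ := by
    intro z hz
    refine le_antisymm ?_ ?_
    · exact Complex.norm_le_norm_of_mapsTo_ball h.d1
        (h.m1.mono_right ball_subset_closedBall) h0 (by rwa [mem_ball_zero_iff] at hz)
    · have h1 := Complex.norm_le_norm_of_mapsTo_ball h.d2
        (h.m2.mono_right ball_subset_closedBall) hφ0 (z := ψ z)
        (by have := h.m1 hz; rwa [mem_ball_zero_iff] at this)
      rwa [h.i1 z hz] at h1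
  intro z hz
  by_cases hz0 : z = 0
  · rw [hz0, h0, map_zero]
  have hz1 : 0 < ‖z‖ := norm_pos_iff.2 hz0
  obtain ⟨u, hu⟩ : ∃ u : V m, u = ((‖z‖ : ℝ) : ℂ)⁻¹ • z := ⟨_, rfl⟩
  have hu1 : ‖u‖ = 1 := by
    rw [hu, norm_smul, norm_inv, Complex.norm_real, norm_norm, inv_mul_cancel₀ hz1.ne']
  have hzu : z = ((‖z‖ : ℝ) : ℂ) • u := by
    rw [hu, smul_smul, mul_inv_cancel₀ (by exact_mod_cast hz1.ne'), one_smul]
  have hmaps : ∀ w ∈ ball (0 : ℂ) 1, w • u ∈ ball (0 : V m) 1 := by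
    intro w hw
    rw [mem_ball_zero_iff] at hw ⊢
    rwa [norm_smul, hu1, mul_one]
  have hfd : DifferentiableOn ℂ (fun w : ℂ => ψ (w • u)) (ball 0 1) :=
    h.d1.comp (by fun_prop) hmaps
  have hf0 : (fun w : ℂ => ψ (w • u)) 0 = 0 := by simp [h0]
  have hhalf : ‖dslope (fun w : ℂ => ψ (w • u)) 0 (1 / 2 : ℂ)‖ = 1 / 1 := by
    rw [dslope_of_ne _ (by norm_num), slope_def_module, norm_smul, zero_smul, h0, sub_zero,
      sub_zero, hn, norm_smul, hu1]
    · norm_num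
    · apply hmaps
      rw [mem_ball_zero_iff]; norm_num
  have hE := Complex.affine_of_mapsTo_ball_of_norm_dslope_eq_div hfd (R₂ := 1) (by
    intro w hw
    rw [zero_smul, h0, mem_closedBall_zero_iff, hn _ (hmaps w hw), norm_smul, hu1, mul_one]
    rw [mem_ball_zero_iff] at hw
    exact hw.le) (z₀ := 1 / 2) (by rw [mem_ball_zero_iff]; norm_num) hhalf
  obtain ⟨D, hD⟩ : ∃ D, D = dslope (fun w : ℂ => ψ (w • u)) 0 (1 / 2 : ℂ) := ⟨_, rfl⟩
  rw [← hD] at hE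
  have hE2 : ∀ w ∈ ball (0 : ℂ) 1, ψ (w • u) = w • D := by
    intro w hw
    have := hE hw
    simpa [h0] using this
  have hder : fderiv ℂ ψ 0 u = D := by
    have h1 : HasDerivAt (fun w : ℂ => ψ (w • u)) (fderiv ℂ ψ 0 u) 0 := by
      have h2 : HasFDerivAt ψ (fderiv ℂ ψ 0) ((0 : ℂ) • u) := by
        rw [zero_smul]
        exact (h.d1.differentiableAt (isOpen_ball.mem_nhds (mem_ball_self one_pos))).hasFDerivAt
      have h3 : HasDerivAt (fun w : ℂ => w • u) u 0 := by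
        simpa using (hasDerivAt_id (0 : ℂ)).smul_const u
      exact h2.comp_hasDerivAt 0 h3
    have h2 : HasDerivAt (fun w : ℂ => w • D) D 0 := by
      simpa using (hasDerivAt_id (0 : ℂ)).smul_const D
    have h3 : (fun w : ℂ => ψ (w • u)) =ᶠ[𝓝 0] (fun w : ℂ => w • D) := by
      filter_upwards [isOpen_ball.mem_nhds (mem_ball_self one_pos)] with w hw
      exact hE2 w hw
    exact h1.unique (h2.congr_of_eventuallyEq h3)
  have hzb : ((‖z‖ : ℝ) : ℂ) ∈ ball (0 : ℂ) 1 := by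
    rw [mem_ball_zero_iff] at hz ⊢
    rwa [Complex.norm_real, norm_norm]
  rw [hzu, hE2 _ hzb, map_smul, hder]

theorem linear_Pr {ψ φ : V m → V m} (h : Aut ψ φ) (h0 : ψ 0 = 0) : Pr ψ := by
  have h1 := cartan h h0
  have h2 : Pr (fun z => fderiv ℂ ψ 0 z) := by
    intro z _ z' _
    refine ⟨1, one_ne_zero, ?_⟩
    rw [one_smul, ContinuousLinearMap.fderiv, map_sub]
  exact h2.congr fun z hz => (h1 z hz).symm

/-- **Automorphisms of the ball are projective.** -/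
theorem aut_Pr (hmv : S_mv) {ψ φ : V m → V m} (h : Aut ψ φ) : Pr ψ := by
  by_cases h0 : ψ 0 = 0
  · exact linear_Pr h h0
  obtain ⟨b, hb⟩ : ∃ b, b = ψ 0 := ⟨_, rfl⟩
  rw [← hb] at h0
  have hb1 : b ∈ ball (0 : V m) 1 := by rw [hb]; exact h.m1 (mem_ball_self one_pos)
  have hbp : 0 < ‖b‖ := norm_pos_iff.2 h0
  obtain ⟨p, hp⟩ : ∃ p : V m, p = ((‖b‖ : ℝ) : ℂ)⁻¹ • b := ⟨_, rfl⟩
  have hp1 : ‖p‖ = 1 := by
    rw [hp, norm_smul, norm_inv, Complex.norm_real, norm_norm, inv_mul_cancel₀ hbp.ne']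
  obtain ⟨a, ha⟩ : ∃ a : ℂ, a = ((‖b‖ : ℝ) : ℂ) := ⟨_, rfl⟩
  have hap : a • p = b := by
    rw [hp, ha, smul_smul, mul_inv_cancel₀ (by exact_mod_cast hbp.ne'), one_smul]
  have haB : a ∈ ball (0 : ℂ) 1 := by
    rw [mem_ball_zero_iff] at hb1 ⊢
    rwa [ha, Complex.norm_real, norm_norm]
  have hA := aut_mv hmv hp1 haB
  have hmv0 : mv p a 0 = b := by
    unfold mv
    simp only [inner_zero_right, mul_zero, add_zero, zero_add, zero_smul, sub_zero, smul_zero,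
      div_one, one_smul]
    exact hap
  have hC : Aut (fun z => mv p (-a) (ψ z)) (fun z => φ (mv p a z)) := hA.symm.comp h
  have hC0 : (fun z => mv p (-a) (ψ z)) 0 = 0 := by
    change mv p (-a) (ψ 0) = 0
    rw [← hb, ← hmv0]
    exact hA.i1 0 (mem_ball_self one_pos)
  have h1 := linear_Pr hC hC0
  have h2 := (mv_Pr p hp1 haB).comp h1 hA.d1 hC.d1 hC.m1
  refine h2.congr fun z hz => ?_
  exact hA.i2 _ (h.m1 hz)

/-- composition with automorphisms preserves affine fibres -/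
theorem AF_comp (hmv : S_mv) {χ : V m → ℂ} (hχ : AF (ball (0 : V m) 1) χ) {ψ φ : V m → V m}
    (h : Aut ψ φ) : AF (ball (0 : V m) 1) (fun z => χ (ψ z)) := by
  refine ⟨hχ.diff.comp h.d1 h.m1, fun z hz z' hz' => ?_⟩
  obtain ⟨c, hc, h1⟩ := aut_Pr hmv h z hz z' hz'
  have h3 : fderiv ℂ (fun z => χ (ψ z)) z = (fderiv ℂ χ (ψ z)).comp (fderiv ℂ ψ z) :=
    fderiv_comp z (hχ.diff.differentiableAt (isOpen_ball.mem_nhds (h.m1 hz)))
      (h.d1.differentiableAt (isOpen_ball.mem_nhds hz))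
  rw [hχ.fib _ (h.m1 hz) _ (h.m1 hz'), h1, map_smul, h3, smul_eq_zero]
  constructor
  · rintro (h4 | h4)
    · exact absurd h4 hc
    · exact h4
  · intro h4
    exact Or.inr h4

end Pool.Agent.X882.MG
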