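import Mathlib
import Pool.Agent.TH310.Cor.Whit
import Pool.Agent.Y263.GF.Alg
import Pool.Agent.X882.MG.Proj

/-!
Iterated Whitney localisation with arbitrary geodesics: if after finitely many localisations, each
along complex geodesics which may be chosen arbitrarily for every member of the family, the Bezout
equations are uniformly solvable on the resulting intersections of caps, then they are uniformly
solvable on the ball.
-/

set_option autoImplicit false

open Metric Set Filter Topology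

namespace Pool.Agent.X882.MG

open Pool.Agent.TH310.Cor (V Aut aut_mv HB Solv SolvL Lo HB_Lo Lo_ge whit1 one_sub_inner HI El mk
  exists_zero not_solv char_le norm_le char_Cc Cc ext' Id_univ Id)
open Pool.Agent.W732.Cor (mv S_mv S_ball)
open Pool.Agent.Y263.GF (AF AD loc_aff frac_AF)
open Pool.Agent.Y263.LF (Bez)

variable {m : ℕ}

/-- the functions `u ∘ χ`, `χ` with affine fibres, `|u| ≤ 1` -/
def AFF (f : V m → ℂ) : Prop :=
  ∃ (u : ℂ → ℂ) (χ : V m → ℂ), DifferentiableOn ℂ u (ball 0 1) ∧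
    (∀ w ∈ ball (0 : ℂ) 1, ‖u w‖ ≤ 1) ∧ AD χ ∧ ∀ z ∈ ball (0 : V m) 1, f z = u (χ z)

theorem AFF.comp (hmv : S_mv) {f : V m → ℂ} (hf : AFF f) {ψ φ : V m → V m} (h : Aut ψ φ) :
    AFF (fun z => f (ψ z)) := by
  obtain ⟨u, χ, h1, h2, h3, h4⟩ := hf
  exact ⟨u, fun z => χ (ψ z), h1, h2, ⟨AF_comp hmv h3.1 h, fun z hz => h3.2 _ (h.m1 hz)⟩,
    fun z hz => h4 _ (h.m1 hz)⟩

theorem AFF.hb {f : V m → ℂ} (hf : AFF f) : HB f := by
  obtain ⟨u, χ, h1, h2, h3, h4⟩ := hf
  have hm : MapsTo χ (ball (0 : V m) 1) (ball (0 : ℂ) 1) := fun z hz => by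
    rw [mem_ball_zero_iff]; exact h3.2 z hz
  refine ⟨(h1.comp h3.1.diff hm).congr h4, fun z hz => ?_⟩
  rw [h4 z hz]
  exact h2 _ (hm hz)

theorem AFF_Lo {q : V m} (hq : ‖q‖ = 1) : AFF (Lo q) := by
  have h1 := frac_AF (X := V m) (innerSL ℂ q) 0 0 1 (by intro z _; simp)
  refine ⟨fun w => (1 - w) / 2, fun z => inner ℂ q z, ?_, ?_, ⟨?_, ?_⟩, fun z _ => rfl⟩
  · intro w _
    exact ((differentiableAt_id.const_sub (1 : ℂ)).div_const 2).differentiableWithinAt
  · intro w hw
    rw [mem_ball_zero_iff] at hw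
    rw [norm_div]
    have h2 : ‖(2 : ℂ)‖ = 2 := by norm_num
    rw [h2, div_le_one (by norm_num)]
    have h3 := norm_sub_le (1 : ℂ) w
    rw [norm_one] at h3
    linarith
  · have h2 : (fun z : V m => (innerSL ℂ q z + 0) / ((0 : V m →L[ℂ] ℂ) z + 1)) =
        fun z => inner ℂ q z := by
      funext z
      simp
    rw [h2] at h1
    exact h1
  · intro z hz
    rw [mem_ball_zero_iff] at hz
    calc ‖(inner ℂ q z : ℂ)‖ ≤ ‖q‖ * ‖z‖ := norm_inner_le_norm q z
      _ < 1 := by rw [hq, one_mul]; exact hz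

/-- solvability together with the function `(1 - ⟨q, z⟩) / 2` implies solvability near `q` -/
theorem solvL_of_Lo {q : V m} (hq : ‖q‖ = 1) {I ι : Type} [Fintype ι] {F : I → ι → V m → ℂ}
    (h : Solv (fun i (o : ι ⊕ Unit) (z : V m) => o.elim (fun j => F i j z) (fun _ => Lo q z))) :
    SolvL F q := by
  classical
  obtain ⟨C, hC⟩ := h
  obtain ⟨C', hC'⟩ : ∃ C', C' = max C 1 := ⟨_, rfl⟩
  have hC'1 : 1 ≤ C' := by rw [hC']; exact le_max_right _ _
  have hCC' : C ≤ C' := by rw [hC']; exact le_max_left _ _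
  refine ⟨2 * C', 1 / C', by positivity, fun i => ?_⟩
  obtain ⟨g, h1, h2, h3⟩ := hC i
  have hlo : ∀ z ∈ ball (0 : V m) 1 ∩ ball q (1 / C'), 1 / 2 ≤ ‖1 - Lo q z * g (Sum.inr ()) z‖ := by
    rintro z ⟨hz, hzq⟩
    rw [mem_ball, dist_eq_norm] at hzq
    have h4 : ‖Lo q z‖ ≤ 1 / C' / 2 := by
      unfold Pool.Agent.TH310.Cor.Lo
      rw [norm_div]
      have h4 : ‖(2 : ℂ)‖ = 2 := by norm_num
      rw [h4]
      have h5 : (1 : ℂ) - inner ℂ q z = inner ℂ q (q - z) := by
        rw [inner_sub_right, inner_self_eq_norm_sq_to_K, hq]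
        norm_num
      have h6 : ‖(1 : ℂ) - inner ℂ q z‖ ≤ ‖z - q‖ := by
        rw [h5]
        refine (norm_inner_le_norm _ _).trans ?_
        rw [hq, one_mul, norm_sub_rev]
      linarith
    have h5 : ‖Lo q z * g (Sum.inr ()) z‖ ≤ 1 / 2 := by
      rw [norm_mul]
      calc ‖Lo q z‖ * ‖g (Sum.inr ()) z‖ ≤ (1 / C' / 2) * C' := by
            gcongr
            exact (h2 _ z hz).trans hCC'
        _ = 1 / 2 := by field_simp
    have h6 := norm_sub_norm_le (1 : ℂ) (Lo q z * g (Sum.inr ()) z)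
    rw [norm_one] at h6
    linarith
  have hsb : ball (0 : V m) 1 ∩ ball q (1 / C') ⊆ ball (0 : V m) 1 := inter_subset_left
  have hne : ∀ z ∈ ball (0 : V m) 1 ∩ ball q (1 / C'), 1 - Lo q z * g (Sum.inr ()) z ≠ 0 := by
    intro z hz h4
    have h5 := hlo z hz
    rw [h4, norm_zero] at h5
    norm_num at h5
  refine ⟨fun j z => g (Sum.inl j) z * (1 - Lo q z * g (Sum.inr ()) z)⁻¹, ?_, ?_, ?_⟩
  · intro j
    have h4 : DifferentiableOn ℂ (fun z => 1 - Lo q z * g (Sum.inr ()) z)
        (ball (0 : V m) 1 ∩ ball q (1 / C')) := by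
      have h5 : DifferentiableOn ℂ (fun z => Lo q z * g (Sum.inr ()) z) (ball (0 : V m) 1) :=
        (HB_Lo hq).1.mul (h1 _)
      exact (h5.mono hsb).const_sub 1
    exact ((h1 _).mono hsb).mul (h4.inv hne)
  · intro j z hz
    rw [norm_mul, norm_inv]
    have h4 := hlo z hz
    have h5 : ‖1 - Lo q z * g (Sum.inr ()) z‖⁻¹ ≤ 2 := by
      rw [inv_le_comm₀ (by linarith) (by norm_num)]
      linarith
    calc ‖g (Sum.inl j) z‖ * ‖1 - Lo q z * g (Sum.inr ()) z‖⁻¹ ≤ C' * 2 := by
          gcongr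
          exact (h2 _ z hz.1).trans hCC'
      _ = 2 * C' := by ring
  · intro z hz
    have h4 := h3 z hz.1
    rw [Fintype.sum_sum_type] at h4
    simp only [Sum.elim_inl, Sum.elim_inr, Finset.univ_unique, Finset.sum_singleton] at h4
    have h5 : ∑ j, F i j z * g (Sum.inl j) z = 1 - Lo q z * g (Sum.inr ()) z := by
      rw [← h4]
      change _ = _ + Lo q z * g (Sum.inr ()) z - Lo q z * g (Sum.inr ()) z
      ring
    have h6 : ∑ j, F i j z * (g (Sum.inl j) z * (1 - Lo q z * g (Sum.inr ()) z)⁻¹) =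
        (∑ j, F i j z * g (Sum.inl j) z) * (1 - Lo q z * g (Sum.inr ()) z)⁻¹ := by
      rw [Finset.sum_mul]
      exact Finset.sum_congr rfl fun j _ => by ring
    rw [h6, h5]
    exact mul_inv_cancel₀ (hne z hz)

/-- the region where the functions `E l` are smaller than `η` -/
def Reg {L : Type} (E : L → V m → ℂ) (η : ℝ) : Set (V m) :=
  {z | z ∈ ball (0 : V m) 1 ∧ ∀ l, ‖E l z‖ < η}

/-- Uniform solvability of the family `F` on the regions where the functions `E` are small, after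
iterated localisations along the images of the geodesic through `0` and `e` under automorphisms
`ψ x` which may depend on the member `x` of the family. -/
inductive Loc (e : V m) : ∀ {X L ι : Type}, [Fintype ι] → (X → L → V m → ℂ) →
    (X → ι → V m → ℂ) → Prop
  | solved {X L ι : Type} [Fintype ι] {E : X → L → V m → ℂ} {F : X → ι → V m → ℂ} (η C : ℝ)
      (hη : 0 < η) (h : ∀ x : X, ∃ g : ι → V m → ℂ,
        (∀ j, DifferentiableOn ℂ (g j) (Reg (E x) η)) ∧ (∀ j, ∀ z ∈ Reg (E x) η, ‖g j z‖ ≤ C) ∧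
        ∀ z ∈ Reg (E x) η, ∑ j, F x j z * g j z = 1) : Loc e E F
  | zoom {X L ι : Type} [Fintype ι] {E : X → L → V m → ℂ} {F : X → ι → V m → ℂ}
      (ψ φ : X → V m → V m) (hψ : ∀ x, Aut (ψ x) (φ x))
      (h : ∀ q : V m, ‖q‖ = 1 → (inner ℂ e q : ℂ) = 0 →
        Loc e (X := X × ball (0 : ℂ) 1) (L := L ⊕ Unit)
          (fun x l z => l.elim (fun l => E x.1 l (ψ x.1 (mv e x.2 z))) (fun _ => Lo q z))
          (fun x j z => F x.1 j (ψ x.1 (mv e x.2 z)))) : Loc e E F
  | values {X L L' ι : Type} [Fintype ι] [Fintype L'] {E : X → L → V m → ℂ} {F : X → ι → V m → ℂ}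
      (A : X → L' → V m → ℂ) (hA : ∀ x l, AFF (A x l))
      (h : ∀ c : L' → ℂ, (∀ l, ‖c l‖ ≤ 1) → Loc e (L := L ⊕ L')
        (fun x l z => l.elim (fun l => E x l z) (fun l => (A x l z - c l) / 2)) F) : Loc e E F

theorem AFF.sub {f : V m → ℂ} (hf : AFF f) {c : ℂ} (hc : ‖c‖ ≤ 1) :
    AFF (fun z => (f z - c) / 2) := by
  obtain ⟨u, χ, h1, h2, h3, h4⟩ := hf
  refine ⟨fun w => (u w - c) / 2, χ, ?_, ?_, h3, fun z hz => ?_⟩
  · have h5 : DifferentiableOn ℂ (fun w => (u w - c) * (2 : ℂ)⁻¹) (ball 0 1) :=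
      (h1.sub_const c).mul_const _
    exact h5
  · intro w hw
    rw [norm_div]
    have h2' : ‖(2 : ℂ)‖ = 2 := by norm_num
    rw [h2', div_le_one (by norm_num)]
    have h5 := norm_sub_le (u w) c
    have h6 := h2 w hw
    linarith
  · change (f z - c) / 2 = (u (χ z) - c) / 2
    rw [h4 z hz]

/-- adding functions with arbitrary values -/
theorem solv_values {X ι L' : Type} [Fintype ι] [Fintype L'] {F : X → ι → V m → ℂ}
    (hF : ∀ x j, HB (F x j)) {A : X → L' → V m → ℂ} (hA : ∀ x l, HB (A x l))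
    (h : ∀ c : L' → ℂ, (∀ l, ‖c l‖ ≤ 1) → Solv (fun x (o : ι ⊕ L') z =>
      o.elim (fun j => F x j z) (fun l => (A x l z - c l) / 2))) : Solv F := by
  classical
  letI tJ : TopologicalSpace X := ⊥
  haveI dJ : DiscreteTopology X := ⟨rfl⟩
  by_contra hns
  obtain ⟨χ, hχ⟩ := exists_zero hF hns
  obtain ⟨c, hc⟩ : ∃ c : L' → ℂ, c = fun l => χ (El (f := fun x => A x l) (fun x => hA x l)) :=
    ⟨_, rfl⟩
  have hc1 : ∀ l, ‖c l‖ ≤ 1 := by
    intro l
    rw [hc]
    exact (char_le χ _).trans (norm_le zero_le_one fun y => (hA y.1 l).2 _ y.2.2)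
  have hB : ∀ x l, HB (fun z => (A x l z - c l) / 2) := by
    intro x l
    refine ⟨?_, fun z hz => ?_⟩
    · have h5 : DifferentiableOn ℂ (fun z => (A x l z - c l) * (2 : ℂ)⁻¹) (ball 0 1) :=
        ((hA x l).1.sub_const (c l)).mul_const _
      exact h5
    · rw [norm_div]
      have h2' : ‖(2 : ℂ)‖ = 2 := by norm_num
      rw [h2', div_le_one (by norm_num)]
      have h5 := norm_sub_le (A x l z) (c l)
      have h6 := (hA x l).2 z hz
      have h7 := hc1 l
      linarith
  have hFB : ∀ x (o : ι ⊕ L'), HB (fun z => o.elim (fun j => F x j z)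
      (fun l => (A x l z - c l) / 2)) := by
    rintro x (j | l)
    · exact hF x j
    · exact hB x l
  refine not_solv (F := fun x (o : ι ⊕ L') z => o.elim (fun j => F x j z)
      (fun l => (A x l z - c l) / 2)) hFB χ univ (by rw [Id_univ, map_one]) ?_ ?_
  · rintro (j | l)
    · exact hχ j
    · have h3 : El (f := fun x z => (A x l z - c l) / 2) (fun x => hB x l) =
          (Cc (1/2) * (El (f := fun x => A x l) (fun x => hA x l) - Cc (c l)) : HI X m) := by
        apply ext'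
        rintro ⟨x, z⟩
        change (A x l z - c l) / 2 = (1/2 : ℂ) * (A x l z - c l)
        ring
      change χ (El (f := fun x z => (A x l z - c l) / 2) (fun x => hB x l)) = 0
      rw [h3, map_mul, char_Cc, map_sub, char_Cc]
      have h4 : χ (El (f := fun x => A x l) (fun x => hA x l)) = c l := by rw [hc]
      rw [h4, sub_self, mul_zero]
  · obtain ⟨C, hC⟩ := h c hc1
    exact ⟨C, fun x => hC x.1⟩

theorem loc_zero {X L ι : Type} [Fintype ι] [Fintype L] {E : X → L → V m → ℂ}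
    {F : X → ι → V m → ℂ} (hE : ∀ x l, AFF (E x l)) (hF : ∀ x j, HB (F x j)) {η C : ℝ}
    (hη : 0 < η) (hg : ∀ x : X, ∃ g : ι → V m → ℂ,
      (∀ j, DifferentiableOn ℂ (g j) (Reg (E x) η)) ∧ (∀ j, ∀ z ∈ Reg (E x) η, ‖g j z‖ ≤ C) ∧
      ∀ z ∈ Reg (E x) η, ∑ j, F x j z * g j z = 1) :
    Solv (fun x (o : L ⊕ ι) z => o.elim (fun l => E x l z) (fun j => F x j z)) := by
  classical
  obtain ⟨C₁, hC₁, H⟩ := loc_aff 1 (Fintype.card L) (Fintype.card ι) (ε := η) (Q := max C 0) hη
    (le_max_right _ _)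
  let eL := Fintype.equivFin L
  let eι := Fintype.equivFin ι
  refine ⟨C₁, fun x => ?_⟩
  choose u χ h1 h2 h3 h4 using hE x
  obtain ⟨g, g1, g2, g3⟩ := hg x
  have hsub : {z : V m | ‖z‖ < 1 ∧ ∀ (k : Fin (Fintype.card L)) (_ : Fin 1),
      ‖u (eL.symm k) (χ (eL.symm k) z)‖ < η} ⊆ Reg (E x) η := by
    rintro z ⟨hz, hz2⟩
    have hzb : z ∈ ball (0 : V m) 1 := mem_ball_zero_iff.2 hz
    refine ⟨hzb, fun l => ?_⟩
    have h5 := hz2 (eL l) 0
    rw [Equiv.symm_apply_apply, ← h4 l z hzb] at h5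
    exact h5
  obtain ⟨G, G1, G2, G3⟩ := H (V m) (fun k => χ (eL.symm k)) (fun k _ => u (eL.symm k))
    (fun k => (h3 _).1) (fun k => (h3 _).2) (fun k _ => h1 _) (fun k _ => h2 _)
    (fun j => F x (eι.symm j)) (fun j => (hF x _).1) (fun j => (hF x _).2)
    ⟨fun j => g (eι.symm j), fun j => (g1 _).mono hsub,
      fun j z hz => (g2 _ z (hsub hz)).trans (le_max_left _ _), fun z hz => by
        rw [← g3 z (hsub hz)]
        exact Equiv.sum_comp eι.symm (fun j => F x j z * g j z)⟩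
  refine ⟨fun o => o.elim (fun l => G (Sum.inl (eL l, 0))) (fun j => G (Sum.inr (eι j))), ?_, ?_,
    ?_⟩
  · rintro (l | j)
    · exact G1 _
    · exact G1 _
  · rintro (l | j) z hz
    · exact G2 _ z hz
    · exact G2 _ z hz
  · intro z hz
    have h5 := G3 z hz
    rw [Fintype.sum_sum_type, Fintype.sum_prod_type] at h5
    simp only [Sum.elim_inl, Sum.elim_inr, Finset.univ_unique, Finset.sum_singleton,
      Fin.default_eq_zero] at h5
    rw [Fintype.sum_sum_type, ← h5]
    congr 1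
    · rw [← Equiv.sum_comp eL]
      refine Finset.sum_congr rfl fun l _ => ?_
      simp only [Sum.elim_inl, Equiv.symm_apply_apply]
      rw [h4 l z hz]
    · rw [← Equiv.sum_comp eι]
      refine Finset.sum_congr rfl fun j _ => ?_
      simp only [Sum.elim_inr, Equiv.symm_apply_apply]

/-- **Iterated localisation.** -/
theorem loc_solv (hmv : S_mv) (hball : S_ball) {e : V m} (he : ‖e‖ = 1) {X L ι : Type}
    [Fintype ι] {E : X → L → V m → ℂ} {F : X → ι → V m → ℂ} (h : Loc e E F) :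
    ∀ [Fintype L], (∀ x l, AFF (E x l)) → (∀ x j, HB (F x j)) → ∀ δ : ℝ, 0 < δ →
      (∀ x, ∀ z ∈ ball (0 : V m) 1, δ ≤ ∑ l, ‖E x l z‖ + ∑ j, ‖F x j z‖) →
      Solv (fun x (o : L ⊕ ι) z => o.elim (fun l => E x l z) (fun j => F x j z)) := by
  induction h with
  | solved η C hη h =>
    intro _ hE hF δ _ _
    exact loc_zero hE hF hη h
  | @zoom X L ι _ E F ψ φ hψ h ih =>
    intro _ hE hF δ hδ hlow
    refine Solv.comp (ψ := φ) (φ := ψ) (fun x => (hψ x).symm) ?_
    refine whit1 hmv hball he (fun x o => ?_) hδ (fun x z hz => ?_) (fun q hq1 heq => ?_)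
    · rcases o with l | j
      · exact (hE x l).hb.comp (hψ x)
      · exact (hF x j).comp (hψ x)
    · rw [Fintype.sum_sum_type]
      exact hlow x _ ((hψ x).m1 hz)
    · refine solvL_of_Lo hq1 ?_
      have hmvx : ∀ x : X × ball (0 : ℂ) 1, Aut (fun z => ψ x.1 (mv e x.2 z))
          (fun z => mv e (-(x.2 : ℂ)) (φ x.1 z)) :=
        fun x => (hψ x.1).comp (aut_mv hmv he x.2.2)
      have h1 := ih q hq1 heq (by
          rintro x (l | l)
          · exact (hE x.1 l).comp hmv (hmvx x)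
          · exact AFF_Lo hq1) (fun x j => (hF x.1 j).comp (hmvx x)) δ hδ (by
          intro x z hz
          have h2 := hlow x.1 _ ((hmvx x).m1 hz)
          rw [Fintype.sum_sum_type]
          simp only [Sum.elim_inl, Sum.elim_inr, Finset.univ_unique, Finset.sum_singleton]
          have h3 := norm_nonneg (Lo q z)
          linarith)
      refine h1.mono (fun o => o.elim (fun o => o.elim (fun l => Sum.inl (Sum.inl l))
        (fun _ => Sum.inr ())) (fun j => Sum.inl (Sum.inr j))) ?_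
      rintro x ((l | l) | j) z _ <;> rfl
  | @values X L L' ι _ _ E F A hA h ih =>
    intro _ hE hF δ hδ hlow
    refine solv_values (A := A) (fun x o => ?_) (fun x l => (hA x l).hb) (fun c hc => ?_)
    · rcases o with l | j
      · exact (hE x l).hb
      · exact hF x j
    · have h1 := ih c hc (by
          rintro x (l | l)
          · exact hE x l
          · exact (hA x l).sub (hc l)) hF δ hδ (by
          intro x z hz
          have h2 := hlow x z hz
          rw [Fintype.sum_sum_type]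
          simp only [Sum.elim_inl, Sum.elim_inr]
          have h3 : 0 ≤ ∑ l, ‖(A x l z - c l) / 2‖ := Finset.sum_nonneg fun _ _ => norm_nonneg _
          linarith)
      refine h1.mono (fun o => o.elim (fun o => o.elim (fun l => Sum.inl (Sum.inl l))
        (fun l => Sum.inr l)) (fun j => Sum.inl (Sum.inr j))) ?_
      rintro x ((l | l) | j) z _ <;> rfl

end Pool.Agent.X882.MG
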