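import Mathlib
import Pool.Agent.X882.MG.Loc

/-!
Tame families: iterated localisation makes their oscillation small. Corona data which consist of
tame functions and one arbitrary function.
-/

set_option autoImplicit false

open Metric Set Filter Topology

namespace Pool.Agent.X882.MG

open Pool.Agent.TH310.Cor (V Aut aut_mv HB Solv Lo)
open Pool.Agent.W732.Cor (mv S_mv S_ball)

variable {m : ℕ}

/-- uniformly small oscillation on the regions where the functions `E` are small -/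
def Small {X L : Type} (E : X → L → V m → ℂ) (F : X → V m → ℂ) : Prop :=
  ∀ ε : ℝ, 0 < ε → ∃ η : ℝ, 0 < η ∧ ∀ x, ∀ z ∈ Reg (E x) η, ∀ w ∈ Reg (E x) η,
    ‖F x z - F x w‖ ≤ ε

/-- **Tame families.** -/
inductive Tame (e : V m) : ∀ {X L : Type}, (X → L → V m → ℂ) → (X → V m → ℂ) → Prop
  | small {X L : Type} {E : X → L → V m → ℂ} {F : X → V m → ℂ} (h : Small E F) : Tame e E F
  | zoom {X L : Type} {E : X → L → V m → ℂ} {F : X → V m → ℂ}
      (ψ φ : X → V m → V m) (hψ : ∀ x, Aut (ψ x) (φ x))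
      (h : ∀ q : V m, ‖q‖ = 1 → (inner ℂ e q : ℂ) = 0 →
        Tame e (X := X × ball (0 : ℂ) 1) (L := L ⊕ Unit)
          (fun x l z => l.elim (fun l => E x.1 l (ψ x.1 (mv e x.2 z))) (fun _ => Lo q z))
          (fun x z => F x.1 (ψ x.1 (mv e x.2 z)))) : Tame e E F
  | values {X L L' : Type} [Fintype L'] {E : X → L → V m → ℂ} {F : X → V m → ℂ}
      (A : X → L' → V m → ℂ) (hA : ∀ x l, AFF (A x l))
      (h : ∀ c : L' → ℂ, (∀ l, ‖c l‖ ≤ 1) → Tame e (L := L ⊕ L')
        (fun x l z => l.elim (fun l => E x l z) (fun l => (A x l z - c l) / 2)) F) : Tame e E F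

theorem Small.comp {X L : Type} {E : X → L → V m → ℂ} {F : X → V m → ℂ} (h : Small E F)
    {X' L' : Type} {E' : X' → L' → V m → ℂ} {F' : X' → V m → ℂ} (g : X' → X)
    (θ θ' : X' → V m → V m) (hθ : ∀ x, Aut (θ x) (θ' x)) (i : L → L')
    (hE : ∀ x l, ∀ z ∈ ball (0 : V m) 1, E' x (i l) z = E (g x) l (θ x z))
    (hF : ∀ x, ∀ z ∈ ball (0 : V m) 1, F' x z = F (g x) (θ x z)) : Small E' F' := by
  intro ε hε
  obtain ⟨η, hη, h1⟩ := h ε hε
  refine ⟨η, hη, fun x z hz w hw => ?_⟩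
  rw [hF x z hz.1, hF x w hw.1]
  refine h1 (g x) _ ⟨(hθ x).m1 hz.1, fun l => ?_⟩ _ ⟨(hθ x).m1 hw.1, fun l => ?_⟩
  · rw [← hE x l z hz.1]; exact hz.2 _
  · rw [← hE x l w hw.1]; exact hw.2 _

theorem aut_id : Aut (fun z : V m => z) (fun z => z) where
  d1 := differentiableOn_id
  d2 := differentiableOn_id
  m1 := fun _ h => h
  m2 := fun _ h => h
  i1 := fun _ _ => rfl
  i2 := fun _ _ => rfl

/-- composition with automorphisms, and more cutoff functions -/
theorem Tame.comp (hmv : S_mv) {e : V m} (he : ‖e‖ = 1) {X L : Type} {E : X → L → V m → ℂ}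
    {F : X → V m → ℂ} (h : Tame e E F) : ∀ {X' L' : Type} {E' : X' → L' → V m → ℂ}
    {F' : X' → V m → ℂ} (g : X' → X) (θ θ' : X' → V m → V m), (∀ x, Aut (θ x) (θ' x)) →
    ∀ (i : L → L'), (∀ x l, ∀ z ∈ ball (0 : V m) 1, E' x (i l) z = E (g x) l (θ x z)) →
    (∀ x, ∀ z ∈ ball (0 : V m) 1, F' x z = F (g x) (θ x z)) → Tame e E' F' := by
  induction h with
  | small h =>
    intro X' L' E' F' g θ θ' hθ i hE hF
    exact Tame.small (h.comp g θ θ' hθ i hE hF)
  | @zoom X L E F ψ φ hψ h ih =>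
    intro X' L' E' F' g θ θ' hθ i hE hF
    have hψ' : ∀ x, Aut (fun z => θ' x (ψ (g x) z)) (fun z => φ (g x) (θ x z)) :=
      fun x => (hθ x).symm.comp (hψ (g x))
    refine Tame.zoom (fun x z => θ' x (ψ (g x) z)) (fun x z => φ (g x) (θ x z)) hψ' ?_
    intro q hq heq
    refine ih q hq heq (fun x => (g x.1, x.2)) (fun _ z => z) (fun _ z => z) (fun _ => aut_id)
      (fun l => l.elim (fun l => Sum.inl (i l)) Sum.inr) ?_ ?_
    · rintro x (l | l) z hz
      · have h1 : ψ (g x.1) (mv e x.2 z) ∈ ball (0 : V m) 1 :=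
          (hψ (g x.1)).m1 ((aut_mv hmv he x.2.2).m1 hz)
        change E' x.1 (i l) (θ' x.1 (ψ (g x.1) (mv e x.2 z))) = E (g x.1) l (ψ (g x.1) (mv e x.2 z))
        rw [hE x.1 l _ ((hθ x.1).m2 h1), (hθ x.1).i2 _ h1]
      · rfl
    · intro x z hz
      have h1 : ψ (g x.1) (mv e x.2 z) ∈ ball (0 : V m) 1 :=
        (hψ (g x.1)).m1 ((aut_mv hmv he x.2.2).m1 hz)
      change F' x.1 (θ' x.1 (ψ (g x.1) (mv e x.2 z))) = F (g x.1) (ψ (g x.1) (mv e x.2 z))
      rw [hF x.1 _ ((hθ x.1).m2 h1), (hθ x.1).i2 _ h1]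
  | @values X L L' _ E F A hA h ih =>
    intro X' L'' E' F' g θ θ' hθ i hE hF
    refine Tame.values (fun x l z => A (g x) l (θ x z)) (fun x l => (hA (g x) l).comp hmv (hθ x)) ?_
    intro c hc
    refine ih c hc g θ θ' hθ (fun l => l.elim (fun l => Sum.inl (i l)) Sum.inr) ?_ hF
    rintro x (l | l) z hz
    · exact hE x l z hz
    · rfl

/-- lower bound for the functions `F j`, `j ∈ T`, on the regions where `E` is small -/
def Low {X L ι : Type} (T : Finset ι) (E : X → L → V m → ℂ) (F : X → ι → V m → ℂ) : Prop :=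
  ∃ η δ : ℝ, 0 < η ∧ 0 < δ ∧ ∀ x, ∀ z ∈ Reg (E x) η, δ ≤ ∑ j ∈ T, ‖F x j z‖

theorem Low.comp {X L ι : Type} {T : Finset ι} {E : X → L → V m → ℂ} {F : X → ι → V m → ℂ}
    (h : Low T E F) {X' L' : Type} {E' : X' → L' → V m → ℂ} {F' : X' → ι → V m → ℂ} (g : X' → X)
    (θ θ' : X' → V m → V m) (hθ : ∀ x, Aut (θ x) (θ' x)) (i : L → L')
    (hE : ∀ x l, ∀ z ∈ ball (0 : V m) 1, E' x (i l) z = E (g x) l (θ x z))
    (hF : ∀ x j, ∀ z ∈ ball (0 : V m) 1, F' x j z = F (g x) j (θ x z)) : Low T E' F' := by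
  obtain ⟨η, δ, hη, hδ, h1⟩ := h
  refine ⟨η, δ, hη, hδ, fun x z hz => ?_⟩
  refine (h1 (g x) (θ x z) ⟨(hθ x).m1 hz.1, fun l => ?_⟩).trans (le_of_eq ?_)
  · rw [← hE x l z hz.1]; exact hz.2 _
  · exact Finset.sum_congr rfl fun j _ => by rw [hF x j z hz.1]

/-- base case: all functions but one of the functions `F j`, `j ∈ T`, have small oscillation -/
theorem loc_base (e : V m) {X L ι : Type} [Fintype ι] [DecidableEq ι] {T : Finset ι}
    {E : X → L → V m → ℂ} {F : X → ι → V m → ℂ} (hF : ∀ x j, HB (F x j)) (hlow : Low T E F)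
    (j₀ : ι) (hj₀ : j₀ ∈ T) (hsm : ∀ j ∈ T, j ≠ j₀ → Small E (fun x => F x j)) : Loc e E F := by
  obtain ⟨η₀, δ, hη₀, hδ, hl⟩ := hlow
  obtain ⟨ε, hε⟩ : ∃ ε : ℝ, ε = δ / (4 * (Fintype.card ι + 1)) := ⟨_, rfl⟩
  have hN0 : (0 : ℝ) ≤ Fintype.card ι := Nat.cast_nonneg _
  have hε0 : 0 < ε := by rw [hε]; positivity
  have hNε : 4 * (Fintype.card ι + 1) * ε = δ := by rw [hε]; field_simp
  have h1 : ∀ j : ι, ∃ η : ℝ, 0 < η ∧ (j ∈ T → j ≠ j₀ → ∀ x, ∀ z ∈ Reg (E x) η,
      ∀ w ∈ Reg (E x) η, ‖F x j z - F x j w‖ ≤ ε) := by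
    intro j
    by_cases hj : j ∈ T ∧ j ≠ j₀
    · obtain ⟨η, hη, h2⟩ := hsm j hj.1 hj.2 ε hε0
      exact ⟨η, hη, fun _ _ => h2⟩
    · exact ⟨1, one_pos, fun h h' => absurd ⟨h, h'⟩ hj⟩
  choose η hη hosc using h1
  obtain ⟨η₁, hη₁, hη₁2⟩ : ∃ η₁ : ℝ, 0 < η₁ ∧ ∀ j, η₁ ≤ η j := by
    have hne : (Finset.univ : Finset ι).Nonempty := ⟨j₀, Finset.mem_univ _⟩
    refine ⟨Finset.univ.inf' hne η, (Finset.lt_inf'_iff hne).2 fun j _ => hη j, fun j => ?_⟩
    exact Finset.inf'_le _ (Finset.mem_univ j)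
  refine Loc.solved (min η₀ η₁) (1 / ε) (lt_min hη₀ hη₁) ?_
  intro x
  have hmono : ∀ {a b : ℝ}, a ≤ b → Reg (E x) a ⊆ Reg (E x) b :=
    fun hab z hz => ⟨hz.1, fun l => (hz.2 l).trans_le hab⟩
  -- a function which is bounded from below gives a solution
  have key : ∀ j₁ : ι, (∀ z ∈ Reg (E x) (min η₀ η₁), ε ≤ ‖F x j₁ z‖) →
      ∃ g : ι → V m → ℂ, (∀ j, DifferentiableOn ℂ (g j) (Reg (E x) (min η₀ η₁))) ∧
        (∀ j, ∀ z ∈ Reg (E x) (min η₀ η₁), ‖g j z‖ ≤ 1 / ε) ∧
        ∀ z ∈ Reg (E x) (min η₀ η₁), ∑ j, F x j z * g j z = 1 := by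
    intro j₁ hj₁
    have hne : ∀ z ∈ Reg (E x) (min η₀ η₁), F x j₁ z ≠ 0 := by
      intro z hz h0
      have h2 := hj₁ z hz
      rw [h0, norm_zero] at h2
      linarith
    refine ⟨fun j z => if j = j₁ then (F x j₁ z)⁻¹ else 0, ?_, ?_, ?_⟩
    · intro j
      by_cases hj : j = j₁
      · simp only [if_pos hj]
        exact (((hF x j₁).1).mono fun z hz => hz.1).inv hne
      · simp only [if_neg hj]
        exact differentiableOn_const _
    · intro j z hz
      by_cases hj : j = j₁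
      · simp only [if_pos hj]
        rw [norm_inv, ← one_div]
        exact one_div_le_one_div_of_le hε0 (hj₁ z hz)
      · simp only [if_neg hj]
        rw [norm_zero]
        positivity
    · intro z hz
      simp only [mul_ite, mul_zero]
      rw [Finset.sum_ite_eq' Finset.univ j₁, if_pos (Finset.mem_univ _)]
      exact mul_inv_cancel₀ (hne z hz)
  by_cases hemp : ∃ w, w ∈ Reg (E x) (min η₀ η₁)
  · obtain ⟨w, hw⟩ := hemp
    by_cases hex : ∃ j, j ∈ T ∧ j ≠ j₀ ∧ 2 * ε ≤ ‖F x j w‖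
    · obtain ⟨j, hjT, hj, hj2⟩ := hex
      refine key j fun z hz => ?_
      have h2 := hosc j hjT hj x z (hmono ((min_le_right _ _).trans (hη₁2 j)) hz) w
        (hmono ((min_le_right _ _).trans (hη₁2 j)) hw)
      have h3 := norm_sub_norm_le (F x j w) (F x j z)
      rw [norm_sub_rev] at h3
      linarith
    · push Not at hex
      refine key j₀ fun z hz => ?_
      have h1 := hl x z (hmono (min_le_left _ _) hz)
      rw [← Finset.add_sum_erase T _ hj₀] at h1
      have h2 : ∀ j ∈ T.erase j₀, ‖F x j z‖ ≤ 3 * ε := by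
        intro j hj
        have hj' := Finset.ne_of_mem_erase hj
        have hjT := Finset.mem_of_mem_erase hj
        have h3 := hosc j hjT hj' x z (hmono ((min_le_right _ _).trans (hη₁2 j)) hz) w
          (hmono ((min_le_right _ _).trans (hη₁2 j)) hw)
        have h4 := hex j hjT hj'
        have h5 := norm_sub_norm_le (F x j z) (F x j w)
        linarith
      have h3 := Finset.sum_le_sum h2
      rw [Finset.sum_const, nsmul_eq_mul] at h3
      have h4 : ((T.erase j₀).card : ℝ) ≤ Fintype.card ι := by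
        exact_mod_cast Finset.card_le_univ _
      have h5 : ((T.erase j₀).card : ℝ) * (3 * ε) ≤ Fintype.card ι * (3 * ε) := by gcongr
      nlinarith
  · push Not at hemp
    exact key j₀ fun z hz => absurd hz (hemp z)

/-- **Tame functions and one arbitrary function.** -/
theorem tame_loc (hmv : S_mv) {e : V m} (he : ‖e‖ = 1) {ι : Type} [Fintype ι] [DecidableEq ι]
    (T : Finset ι) (j₀ : ι) (hj₀ : j₀ ∈ T) (s : Finset ι) :
    ∀ {X L : Type} {E : X → L → V m → ℂ} {F : X → ι → V m → ℂ},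
    (∀ x j, HB (F x j)) → Low T E F → (∀ j ∈ s, Tame e E (fun x => F x j)) →
    (∀ j ∈ T, j ∉ s → j ≠ j₀ → Small E (fun x => F x j)) → Loc e E F := by
  induction s using Finset.induction_on with
  | empty =>
    intro X L E F hF hlow _ hsm
    exact loc_base e hF hlow j₀ hj₀ fun j hT hj => hsm j hT (Finset.notMem_empty j) hj
  | insert a s ha ih =>
    intro X L E F hF hlow hT hsm
    have key : ∀ {X L : Type} {E : X → L → V m → ℂ} {f : X → V m → ℂ}, Tame e E f →
        ∀ {F : X → ι → V m → ℂ}, (∀ x z, F x a z = f x z) → (∀ x j, HB (F x j)) → Low T E F →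
        (∀ j ∈ s, Tame e E (fun x => F x j)) →
        (∀ j ∈ T, j ∉ insert a s → j ≠ j₀ → Small E (fun x => F x j)) → Loc e E F := by
      intro X L E f hf
      induction hf with
      | @small X L E f h =>
        intro F hFf hF hlow hT hsm
        refine ih hF hlow hT fun j hjT hj hj0 => ?_
        by_cases hja : j = a
        · have h2 : (fun x => F x j) = f := by
            funext x z
            rw [hja]
            exact hFf x z
          rw [h2]
          exact h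
        · exact hsm j hjT (by simp [hja, hj]) hj0
      | @zoom X L E f ψ φ hψ h ih2 =>
        intro F hFf hF hlow hT hsm
        refine Loc.zoom ψ φ hψ fun q hq heq => ?_
        have hA : ∀ x : X × ball (0 : ℂ) 1, Aut (fun z => ψ x.1 (mv e x.2 z))
            (fun z => mv e (-(x.2 : ℂ)) (φ x.1 z)) :=
          fun x => (hψ x.1).comp (aut_mv hmv he x.2.2)
        refine ih2 q hq heq (fun x z => hFf x.1 _) (fun x j => (hF x.1 j).comp (hA x)) ?_ ?_ ?_
        · exact hlow.comp Prod.fst (fun x z => ψ x.1 (mv e x.2 z)) _ hA Sum.inl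
            (fun x l z _ => rfl) (fun x j z _ => rfl)
        · intro j hj
          exact (hT j hj).comp hmv he Prod.fst (fun x z => ψ x.1 (mv e x.2 z)) _ hA Sum.inl
            (fun x l z _ => rfl) (fun x z _ => rfl)
        · intro j hjT hj hj0
          exact (hsm j hjT hj hj0).comp Prod.fst (fun x z => ψ x.1 (mv e x.2 z)) _ hA Sum.inl
            (fun x l z _ => rfl) (fun x z _ => rfl)
      | @values X L L' _ E f A hA h ih2 =>
        intro F hFf hF hlow hT hsm
        refine Loc.values A hA fun c hc => ?_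
        refine ih2 c hc hFf hF ?_ ?_ ?_
        · exact hlow.comp id (fun _ z => z) (fun _ z => z) (fun _ => aut_id) Sum.inl
            (fun x l z _ => rfl) (fun x j z _ => rfl)
        · intro j hj
          exact (hT j hj).comp hmv he id (fun _ z => z) (fun _ z => z) (fun _ => aut_id) Sum.inl
            (fun x l z _ => rfl) (fun x z _ => rfl)
        · intro j hjT hj hj0
          exact (hsm j hjT hj hj0).comp id (fun _ z => z) (fun _ z => z) (fun _ => aut_id) Sum.inl
            (fun x l z _ => rfl) (fun x z _ => rfl)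
    exact key (hT a (Finset.mem_insert_self a s)) (fun _ _ => rfl) hF hlow
      (fun j hj => hT j (Finset.mem_insert_of_mem hj)) hsm

end Pool.Agent.X882.MG
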