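import Mathlib
import Pool.Agent.X882.MG.Tame

/-!
Tubes of bounded hyperbolic radius around finitely many complex geodesics may be ignored.
-/

set_option autoImplicit false

open Metric Set Filter Topology

namespace Pool.Agent.X882.MG

open Pool.Agent.TH310.Cor (V Aut aut_mv HB Solv Lo Lo_ge)
open Pool.Agent.W732.Cor (mv S_mv S_ball)

variable {m : ℕ}

/-- the tube of pseudohyperbolic radius `ρ` around the geodesic through `0` and `e` -/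
def Tub (e : V m) (ρ : ℝ) : Set (V m) :=
  {z | ‖z - (inner ℂ e z : ℂ) • e‖ ^ 2 ≤ ρ ^ 2 * (1 - ‖(inner ℂ e z : ℂ)‖ ^ 2)}

theorem mv_perp (hmv : S_mv) {e : V m} (he : ‖e‖ = 1) {a : ℂ} (ha : a ∈ ball (0 : ℂ) 1) {z : V m}
    (hz : z ∈ ball (0 : V m) 1) : mv e a z - (inner ℂ e (mv e a z) : ℂ) • e =
      (((√(1 - ‖a‖ ^ 2) : ℝ) : ℂ) / (1 + starRingEnd ℂ a * inner ℂ e z)) •
        (z - (inner ℂ e z : ℂ) • e) := by
  obtain ⟨-, -, -, h1, -⟩ := hmv m e he a ha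
  rw [h1 z hz]
  unfold Pool.Agent.W732.Cor.mv
  rw [smul_add, smul_smul, smul_smul, add_sub_assoc, add_comm, sub_add, ← sub_smul]
  have h2 : ((inner ℂ e z : ℂ) + a) / (1 + starRingEnd ℂ a * inner ℂ e z) -
      1 / (1 + starRingEnd ℂ a * inner ℂ e z) * ((inner ℂ e z : ℂ) + a) = 0 := by ring
  rw [h2, zero_smul, sub_zero]
  congr 1
  ring

theorem tub_mv (hmv : S_mv) {e : V m} (he : ‖e‖ = 1) {ρ : ℝ} {a : ℂ} (ha : a ∈ ball (0 : ℂ) 1)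
    {z : V m} (hz : z ∈ ball (0 : V m) 1) (h : mv e a z ∈ Tub e ρ) : z ∈ Tub e ρ := by
  obtain ⟨-, -, -, h1, -⟩ := hmv m e he a ha
  unfold Tub at h ⊢
  rw [mem_setOf_eq] at h ⊢
  rw [mv_perp hmv he ha hz, h1 z hz, norm_smul, norm_div, norm_div, Complex.norm_real,
    Real.norm_of_nonneg (Real.sqrt_nonneg _), mul_pow, div_pow, div_pow] at h
  obtain ⟨ζ, hζ⟩ : ∃ ζ : ℂ, ζ = inner ℂ e z := ⟨_, rfl⟩
  rw [← hζ] at h ⊢
  rw [mem_ball_zero_iff] at ha hz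
  have hζ1 : ‖ζ‖ < 1 := by
    rw [hζ]
    calc ‖(inner ℂ e z : ℂ)‖ ≤ ‖e‖ * ‖z‖ := norm_inner_le_norm e z
      _ < 1 := by rw [he, one_mul]; exact hz
  have ha2 : 0 < 1 - ‖a‖ ^ 2 := by nlinarith [norm_nonneg a]
  rw [Real.sq_sqrt ha2.le] at h
  have hd : 1 + starRingEnd ℂ a * ζ ≠ 0 := by
    intro h0
    have h2 : starRingEnd ℂ a * ζ = -1 := by linear_combination h0
    have h3 : ‖starRingEnd ℂ a * ζ‖ = 1 := by rw [h2]; simp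
    rw [norm_mul, RCLike.norm_conj] at h3
    nlinarith [norm_nonneg a, norm_nonneg ζ]
  have hd0 : 0 < ‖1 + starRingEnd ℂ a * ζ‖ ^ 2 := by positivity
  have hid : ‖1 + starRingEnd ℂ a * ζ‖ ^ 2 - ‖ζ + a‖ ^ 2 = (1 - ‖a‖ ^ 2) * (1 - ‖ζ‖ ^ 2) := by
    rw [← Complex.normSq_eq_norm_sq, ← Complex.normSq_eq_norm_sq, ← Complex.normSq_eq_norm_sq,
      ← Complex.normSq_eq_norm_sq]
    simp only [Complex.normSq_apply, Complex.add_re, Complex.add_im, Complex.one_re,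
      Complex.one_im, Complex.mul_re, Complex.mul_im, Complex.conj_re, Complex.conj_im]
    ring
  have h2 : ρ ^ 2 * (1 - ‖ζ + a‖ ^ 2 / ‖1 + starRingEnd ℂ a * ζ‖ ^ 2) =
      (1 - ‖a‖ ^ 2) / ‖1 + starRingEnd ℂ a * ζ‖ ^ 2 * (ρ ^ 2 * (1 - ‖ζ‖ ^ 2)) := by
    rw [one_sub_div hd0.ne', hid]
    ring
  rw [h2] at h
  exact le_of_mul_le_mul_left h (by positivity)

theorem tub_far {e : V m} (he : ‖e‖ = 1) {ρ : ℝ} (hρ0 : 0 ≤ ρ) (hρ : ρ < 1) {q : V m}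
    (hq : ‖q‖ = 1) (heq : (inner ℂ e q : ℂ) = 0) {z : V m} (hz : z ∈ ball (0 : V m) 1)
    (hL : ‖Lo q z‖ < ((1 - ρ) / 4) ^ 2 / 4) : z ∉ Tub e ρ := by
  intro hT
  have hr : ‖z - q‖ < (1 - ρ) / 4 := by
    by_contra hcon
    push Not at hcon
    have h1 := Lo_ge hq hz (by linarith : (0 : ℝ) ≤ (1 - ρ) / 4) hcon
    linarith
  have hζ : ‖(inner ℂ e z : ℂ)‖ ≤ ‖z - q‖ := by
    have h1 : (inner ℂ e z : ℂ) = inner ℂ e (z - q) := by rw [inner_sub_right, heq, sub_zero]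
    rw [h1]
    calc ‖(inner ℂ e (z - q) : ℂ)‖ ≤ ‖e‖ * ‖z - q‖ := norm_inner_le_norm e _
      _ = ‖z - q‖ := by rw [he, one_mul]
  have h2 : ‖q‖ ≤ ‖z - (inner ℂ e z : ℂ) • e‖ + ‖z - q‖ + ‖(inner ℂ e z : ℂ)‖ := by
    have h3 : q = (z - (inner ℂ e z : ℂ) • e) - (z - q) + (inner ℂ e z : ℂ) • e := by abel
    calc ‖q‖ = ‖(z - (inner ℂ e z : ℂ) • e) - (z - q) + (inner ℂ e z : ℂ) • e‖ := by rw [← h3]
      _ ≤ ‖(z - (inner ℂ e z : ℂ) • e) - (z - q)‖ + ‖(inner ℂ e z : ℂ) • e‖ := norm_add_le _ _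
      _ ≤ ‖z - (inner ℂ e z : ℂ) • e‖ + ‖z - q‖ + ‖(inner ℂ e z : ℂ) • e‖ := by
          gcongr
          exact norm_sub_le _ _
      _ = ‖z - (inner ℂ e z : ℂ) • e‖ + ‖z - q‖ + ‖(inner ℂ e z : ℂ)‖ := by
          rw [norm_smul, he, mul_one]
  rw [hq] at h2
  unfold Tub at hT
  rw [mem_setOf_eq] at hT
  have h3 : (1 + ρ) / 2 ≤ ‖z - (inner ℂ e z : ℂ) • e‖ := by linarith
  have h4 : ((1 + ρ) / 2) ^ 2 ≤ ‖z - (inner ℂ e z : ℂ) • e‖ ^ 2 := by gcongr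
  have h5 : 0 ≤ ‖(inner ℂ e z : ℂ)‖ ^ 2 := by positivity
  have h6 : ρ ^ 2 * (1 - ‖(inner ℂ e z : ℂ)‖ ^ 2) ≤ ρ ^ 2 := by nlinarith [sq_nonneg ρ]
  nlinarith

/-- lower bound outside of tubes -/
def LowOut {X L ι : Type} (e : V m) (ρ : ℝ) (T : Finset ι) {n : ℕ} (φ : X → Fin n → V m → V m)
    (E : X → L → V m → ℂ) (F : X → ι → V m → ℂ) : Prop :=
  ∃ η δ : ℝ, 0 < η ∧ 0 < δ ∧ ∀ x, ∀ z ∈ Reg (E x) η, (∀ i, φ x i z ∉ Tub e ρ) →
    δ ≤ ∑ j ∈ T, ‖F x j z‖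

theorem tube_loc (hmv : S_mv) {e : V m} (he : ‖e‖ = 1) {ι : Type} [Fintype ι] [DecidableEq ι]
    (T : Finset ι) (j₀ : ι) (hj₀ : j₀ ∈ T) (s : Finset ι) {ρ : ℝ} (hρ0 : 0 ≤ ρ) (hρ : ρ < 1) :
    ∀ (n : ℕ) {X L : Type} {E : X → L → V m → ℂ} {F : X → ι → V m → ℂ}
      (ψ φ : X → Fin n → V m → V m), (∀ x i, Aut (ψ x i) (φ x i)) → (∀ x j, HB (F x j)) →
      LowOut e ρ T φ E F → (∀ j ∈ s, Tame e E (fun x => F x j)) →
      (∀ j ∈ T, j ∉ s → j ≠ j₀ → Small E (fun x => F x j)) → Loc e E F := by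
  intro n
  induction n with
  | zero =>
    intro X L E F ψ φ hψ hF hlow hT hsm
    obtain ⟨η, δ, hη, hδ, h1⟩ := hlow
    exact tame_loc hmv he T j₀ hj₀ s hF ⟨η, δ, hη, hδ, fun x z hz => h1 x z hz
      (fun i => i.elim0)⟩ hT hsm
  | succ n ih =>
    intro X L E F ψ φ hψ hF hlow hT hsm
    refine Loc.zoom (fun x => ψ x 0) (fun x => φ x 0) (fun x => hψ x 0) fun q hq heq => ?_
    have hA : ∀ x : X × ball (0 : ℂ) 1, Aut (fun z => ψ x.1 0 (mv e x.2 z))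
        (fun z => mv e (-(x.2 : ℂ)) (φ x.1 0 z)) :=
      fun x => (hψ x.1 0).comp (aut_mv hmv he x.2.2)
    refine ih (fun x i z => mv e (-(x.2 : ℂ)) (φ x.1 0 (ψ x.1 i.succ z)))
      (fun x i z => φ x.1 i.succ (ψ x.1 0 (mv e x.2 z)))
      (fun x i => (hA x).symm.comp (hψ x.1 i.succ)) (fun x j => (hF x.1 j).comp (hA x)) ?_ ?_ ?_
    · obtain ⟨η, δ, hη, hδ, h1⟩ := hlow
      have hρ4 : 0 < ((1 - ρ) / 4) ^ 2 / 4 := by
        have : 0 < 1 - ρ := by linarith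
        positivity
      refine ⟨min η (((1 - ρ) / 4) ^ 2 / 4), δ, lt_min hη hρ4, hδ, fun x z hz hout => ?_⟩
      refine h1 x.1 _ ⟨(hA x).m1 hz.1, fun l => (hz.2 (Sum.inl l)).trans_le (min_le_left _ _)⟩ ?_
      intro i
      refine Fin.cases ?_ (fun i => ?_) i
      · have h2 : mv e x.2 z ∈ ball (0 : V m) 1 := (aut_mv hmv he x.2.2).m1 hz.1
        rw [(hψ x.1 0).i1 _ h2]
        intro hcon
        exact tub_far he hρ0 hρ hq heq hz.1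
          ((hz.2 (Sum.inr ())).trans_le (min_le_right _ _)) (tub_mv hmv he x.2.2 hz.1 hcon)
      · exact hout i
    · intro j hj
      exact (hT j hj).comp hmv he Prod.fst (fun x z => ψ x.1 0 (mv e x.2 z)) _ hA Sum.inl
        (fun x l z _ => rfl) (fun x z _ => rfl)
    · intro j hjT hj hj0
      exact (hsm j hjT hj hj0).comp Prod.fst (fun x z => ψ x.1 0 (mv e x.2 z)) _ hA Sum.inl
        (fun x l z _ => rfl) (fun x z _ => rfl)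

/-- **Corona theorem for tame functions and one arbitrary function, outside of tubes.** -/
theorem tube_solv (hmv : S_mv) (hball : S_ball) {e : V m} (he : ‖e‖ = 1) {X L ι : Type}
    [Fintype ι] [Fintype L] {E : X → L → V m → ℂ} {F : X → ι → V m → ℂ}
    (hE : ∀ x l, AFF (E x l)) (hF : ∀ x j, HB (F x j)) {δ : ℝ} (hδ : 0 < δ)
    (hlow : ∀ x, ∀ z ∈ ball (0 : V m) 1, δ ≤ ∑ l, ‖E x l z‖ + ∑ j, ‖F x j z‖)
    {ρ : ℝ} (hρ0 : 0 ≤ ρ) (hρ : ρ < 1) {n : ℕ} (ψ φ : X → Fin n → V m → V m)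
    (hψ : ∀ x i, Aut (ψ x i) (φ x i)) (T : Finset ι) (hout : LowOut e ρ T φ E F) (j₀ : ι)
    (hj₀ : j₀ ∈ T) (hT : ∀ j ∈ T, j ≠ j₀ → Tame e E (fun x => F x j)) :
    Solv (fun x (o : L ⊕ ι) z => o.elim (fun l => E x l z) (fun j => F x j z)) := by
  classical
  refine loc_solv hmv hball he ?_ hE hF δ hδ hlow
  refine tube_loc hmv he T j₀ hj₀ (T.erase j₀) hρ0 hρ n ψ φ hψ hF hout ?_ ?_
  · intro j hj
    exact hT j (Finset.mem_of_mem_erase hj) (Finset.ne_of_mem_erase hj)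
  · intro j hjT hj hj0
    exact absurd (Finset.mem_erase.2 ⟨hj0, hjT⟩) hj

end Pool.Agent.X882.MG
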