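import Mathlib
import Pool.Agent.X882.MG.Tube
import Pool.Agent.W721.Cor.Mv

/-!
Examples of tame functions.
-/

set_option autoImplicit false

open Metric Set Filter Topology

namespace Pool.Agent.X882.MG

open Pool.Agent.TH310.Cor (V Aut aut_mv HB Solv Lo Lo_ge)
open Pool.Agent.W732.Cor (mv tau S_mv S_ball S_sc2)

variable {m : ℕ}

theorem Tame.lip {e : V m} {X L : Type} {E : X → L → V m → ℂ} {F : X → V m → ℂ} (h : Tame e E F)
    (Φ : ℂ → ℂ) (K : ℝ) (hK : 0 < K) (hΦ : ∀ a b, ‖Φ a - Φ b‖ ≤ K * ‖a - b‖) :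
    Tame e E (fun x z => Φ (F x z)) := by
  induction h with
  | @small X L E F h =>
    refine Tame.small fun ε hε => ?_
    obtain ⟨η, hη, h1⟩ := h (ε / K) (by positivity)
    refine ⟨η, hη, fun x z hz w hw => (hΦ _ _).trans ?_⟩
    calc K * ‖F x z - F x w‖ ≤ K * (ε / K) := by
          gcongr
          exact h1 x z hz w hw
      _ = ε := by field_simp
  | zoom ψ φ hψ h ih => exact Tame.zoom ψ φ hψ fun q hq heq => ih q hq heq
  | values A hA h ih => exact Tame.values A hA fun c hc => ih c hc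

/-- functions with affine fibres are tame -/
theorem tame_aff (e : V m) {X L : Type} (E : X → L → V m → ℂ) {F : X → V m → ℂ}
    (hF : ∀ x, AFF (F x)) : Tame e E F := by
  refine Tame.values (L' := Unit) (fun x _ => F x) (fun x _ => hF x) fun c _ => Tame.small ?_
  intro ε hε
  refine ⟨ε / 4, by positivity, fun x z hz w hw => ?_⟩
  have h1 := hz.2 (Sum.inr ())
  have h2 := hw.2 (Sum.inr ())
  change ‖(F x z - c ()) / 2‖ < ε / 4 at h1
  change ‖(F x w - c ()) / 2‖ < ε / 4 at h2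
  rw [norm_div] at h1 h2
  have h3 : ‖(2 : ℂ)‖ = 2 := by norm_num
  rw [h3] at h1 h2
  have h4 : F x z - F x w = (F x z - c ()) - (F x w - c ()) := by ring
  rw [h4]
  have h5 := norm_sub_le (F x z - c ()) (F x w - c ())
  linarith

/-- functions which are scaled continuous along a geodesic are tame -/
theorem tame_sc (e : V m) {X L : Type} (E : X → L → V m → ℂ) {F : X → V m → ℂ}
    (ψ φ : X → V m → V m) (hψ : ∀ x, Aut (ψ x) (φ x))
    (h : ∀ q : V m, ‖q‖ = 1 → (inner ℂ e q : ℂ) = 0 → ∀ ε : ℝ, 0 < ε → ∃ r : ℝ, 0 < r ∧ ∀ x,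
      ∀ a ∈ ball (0 : ℂ) 1, ∀ z ∈ ball (0 : V m) 1, ∀ w ∈ ball (0 : V m) 1,
        ‖z - q‖ < r → ‖w - q‖ < r → ‖F x (ψ x (mv e a z)) - F x (ψ x (mv e a w))‖ ≤ ε) :
    Tame e E F := by
  refine Tame.zoom ψ φ hψ fun q hq heq => Tame.small fun ε hε => ?_
  obtain ⟨r, hr, h1⟩ := h q hq heq ε hε
  have hL : ∀ z ∈ ball (0 : V m) 1, ‖Lo q z‖ < r ^ 2 / 4 → ‖z - q‖ < r := by
    intro z hz h2
    by_contra hcon
    push Not at hcon
    have h3 := Lo_ge hq hz hr.le hcon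
    linarith
  refine ⟨r ^ 2 / 4, by positivity, fun x z hz w hw => ?_⟩
  exact h1 x.1 x.2 x.2.2 z hz.1 w hw.1 (hL z hz.1 (hz.2 (Sum.inr ())))
    (hL w hw.1 (hw.2 (Sum.inr ())))

/-- functions which are continuous under the contraction towards a geodesic are scaled continuous
along the geodesic -/
theorem sc_contr (hsc : S_sc2) {e : V m} (he : ‖e‖ = 1) {f : V m → ℂ} {ψ φ : V m → V m}
    (hψ : Aut ψ φ) (hf : DifferentiableOn ℂ f (ball 0 1)) {M : ℝ}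
    (hM : ∀ z ∈ ball (0 : V m) 1, ‖f z‖ ≤ M)
    (h : ∀ ε : ℝ, 0 < ε → ∃ t : ℝ, 0 ≤ t ∧ t < 1 ∧ ∀ z ∈ ball (0 : V m) 1,
      ‖f (ψ z) - f (ψ (tau e t z))‖ ≤ ε) :
    ∀ q : V m, ‖q‖ = 1 → (inner ℂ e q : ℂ) = 0 → ∀ ε : ℝ, 0 < ε → ∃ r : ℝ, 0 < r ∧
      ∀ a ∈ ball (0 : ℂ) 1, ∀ z ∈ ball (0 : V m) 1, ∀ w ∈ ball (0 : V m) 1,
        ‖z - q‖ < r → ‖w - q‖ < r → ‖f (ψ (mv e a z)) - f (ψ (mv e a w))‖ ≤ ε := by
  intro q hq heq ε hε
  obtain ⟨t, ht0, ht1, h1⟩ := h (ε / 3) (by positivity)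
  obtain ⟨R, hR⟩ : ∃ R, R = max M 1 := ⟨_, rfl⟩
  have hR1 : 1 ≤ R := by rw [hR]; exact le_max_right _ _
  have hMR : M ≤ R := by rw [hR]; exact le_max_left _ _
  have hR0 : 0 < R := by linarith
  obtain ⟨r, hr, h2⟩ := hsc m e he t ht0 ht1 (ε / (3 * R)) (by positivity)
  refine ⟨r, hr, fun a ha z hz w hw hzq hwq => ?_⟩
  have hmve : ∀ z ∈ ball (0 : V m) 1, mv e a z ∈ ball (0 : V m) 1 :=
    fun z hz => (aut_mv Pool.Agent.W721.Cor.Mv.main he ha).m1 hz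
  have h3 := h2 (fun z => f (ψ z) * ((R : ℝ) : ℂ)⁻¹) ((hf.comp hψ.d1 hψ.m1).mul_const _) (by
    intro z hz
    rw [norm_mul, norm_inv, Complex.norm_real, Real.norm_of_nonneg hR0.le,
      mul_inv_le_iff₀ hR0, one_mul]
    exact (hM _ (hψ.m1 hz)).trans hMR) q hq heq a ha z hz w hw hzq hwq
  have h4 : ‖f (ψ (tau e t (mv e a z))) - f (ψ (tau e t (mv e a w)))‖ ≤ ε / 3 := by
    rw [← sub_mul, norm_mul, norm_inv, Complex.norm_real, Real.norm_of_nonneg hR0.le,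
      mul_inv_le_iff₀ hR0] at h3
    refine h3.trans (le_of_eq ?_)
    field_simp
  have h5 := h1 _ (hmve z hz)
  have h6 := h1 _ (hmve w hw)
  have h7 : f (ψ (mv e a z)) - f (ψ (mv e a w)) =
      (f (ψ (mv e a z)) - f (ψ (tau e t (mv e a z)))) +
      (f (ψ (tau e t (mv e a z))) - f (ψ (tau e t (mv e a w)))) -
      (f (ψ (mv e a w)) - f (ψ (tau e t (mv e a w)))) := by ring
  rw [h7]
  have h8 := norm_sub_le ((f (ψ (mv e a z)) - f (ψ (tau e t (mv e a z)))) +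
      (f (ψ (tau e t (mv e a z))) - f (ψ (tau e t (mv e a w)))))
      (f (ψ (mv e a w)) - f (ψ (tau e t (mv e a w))))
  have h9 := norm_add_le (f (ψ (mv e a z)) - f (ψ (tau e t (mv e a z))))
      (f (ψ (tau e t (mv e a z))) - f (ψ (tau e t (mv e a w))))
  linarith

end Pool.Agent.X882.MG
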