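import Mathlib
import Pool.Agent.X882.MG.Ex

/-!
Corona theorem for families whose members lie, locally at every boundary point and outside of tubes,
in the closed algebra generated by one arbitrary function and tame functions.
-/

set_option autoImplicit false

open Metric Set Filter Topology WeakDual

namespace Pool.Agent.X882.MG

open Pool.Agent.TH310.Cor (V Aut aut_mv HB Solv Lo HB_Lo Lo_ge HI El mk Ix
  exists_zero not_solv char_le norm_le char_Cc Cc ext' Id_univ Id char_interior char_index pt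
  pt_norm char_Lw Lw le_norm)
open Pool.Agent.W732.Cor (mv S_mv S_ball)
open Pool.Agent.H326R3.CB (Bt)

variable {m : ℕ}

theorem Tub_mono {e : V m} {ρ ρ' : ℝ} (h0 : 0 ≤ ρ) (h : ρ ≤ ρ') {z : V m} (he : ‖e‖ = 1)
    (hz : z ∈ ball (0 : V m) 1) (hT : z ∈ Tub e ρ) : z ∈ Tub e ρ' := by
  unfold Tub at hT ⊢
  rw [mem_setOf_eq] at hT ⊢
  have h1 : ‖(inner ℂ e z : ℂ)‖ < 1 := by
    rw [mem_ball_zero_iff] at hz
    calc ‖(inner ℂ e z : ℂ)‖ ≤ ‖e‖ * ‖z‖ := norm_inner_le_norm e z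
      _ < 1 := by rw [he, one_mul]; exact hz
  have h2 : 0 ≤ 1 - ‖(inner ℂ e z : ℂ)‖ ^ 2 := by nlinarith [norm_nonneg (inner ℂ e z : ℂ)]
  have h3 : ρ ^ 2 ≤ ρ' ^ 2 := by gcongr
  nlinarith

section alg

variable {X : Type} [TopologicalSpace X] [DiscreteTopology X]

theorem char_Lo (χ : characterSpace ℂ (HI X m)) (hp : ‖pt χ‖ = 1) :
    χ (El (I := X) (f := fun _ => Lo (pt χ)) (fun _ => HB_Lo hp)) = 0 := by
  have h1 : El (I := X) (f := fun _ => Lo (pt χ)) (fun _ => HB_Lo hp) =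
      (Cc (1/2) * (1 - Lw (pt χ)) : HI X m) := by
    apply ext'
    rintro ⟨x, z⟩
    change (1 - inner ℂ (pt χ) (z : V m)) / 2 = (1/2 : ℂ) * (1 - inner ℂ (pt χ) (z : V m))
    ring
  rw [h1, map_mul, map_sub, map_one, char_Lw, inner_self_eq_norm_sq_to_K, hp]
  norm_num

/-- characters over boundary points are limits outside of tubes, for one arbitrary function and
tame functions -/
theorem sep (hmv : S_mv) (hball : S_ball) {e : V m} (he : ‖e‖ = 1) {ι : Type} [Fintype ι]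
    {F : X → ι → V m → ℂ} (hF : ∀ x j, HB (F x j)) {δ : ℝ} (hδ : 0 < δ)
    (hlow : ∀ x, ∀ z ∈ ball (0 : V m) 1, δ ≤ ∑ j, ‖F x j z‖) (χ : characterSpace ℂ (HI X m))
    (hχ : ∀ j, χ (El (f := fun x => F x j) (fun x => hF x j)) = 0) (hp : ‖pt χ‖ = 1)
    {κ : Type} [Fintype κ] (D : X → κ → V m → ℂ)
    (hd : ∀ k x, DifferentiableOn ℂ (D x k) (ball 0 1)) (M : κ → ℝ)
    (hb : ∀ k x, ∀ z ∈ ball (0 : V m) 1, ‖D x k z‖ ≤ M k) (k₀ : κ)
    (hT : ∀ k, k ≠ k₀ → Tame e (X := X) (L := Unit) (fun _ _ => Lo (pt χ)) (fun x => D x k))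
    {τ : Type} [Fintype τ] (ψ φ : X → τ → V m → V m) (hψ : ∀ x i, Aut (ψ x i) (φ x i))
    (ρ : τ → ℝ) (hρ0 : ∀ i, 0 ≤ ρ i) (hρ : ∀ i, ρ i < 1) {η δ' : ℝ} (hη : 0 < η) (hδ' : 0 < δ') :
    ∃ x, ∃ z ∈ ball (0 : V m) 1, ‖z - pt χ‖ < η ∧ (∀ i, φ x i z ∉ Tub e (ρ i)) ∧
      ∀ k, ‖D x k z - χ (mk (f := fun x => D x k) (hd k) (hb k))‖ < δ' := by
  classical
  by_contra hcon
  push Not at hcon
  obtain ⟨ρ₀, h0, h1, h2⟩ : ∃ ρ₀ : ℝ, 0 ≤ ρ₀ ∧ ρ₀ < 1 ∧ ∀ i, ρ i ≤ ρ₀ := by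
    by_cases hτ : Nonempty τ
    · obtain ⟨i, hi⟩ := Finite.exists_max ρ
      exact ⟨ρ i, hρ0 i, hρ i, hi⟩
    · exact ⟨0, le_refl 0, one_pos, fun i => absurd ⟨i⟩ hτ⟩
  obtain ⟨c, hc⟩ : ∃ c : κ → ℂ, c = fun k => χ (mk (f := fun x => D x k) (hd k) (hb k)) := ⟨_, rfl⟩
  have hM : ∀ k, ‖c k‖ ≤ |M k| + 1 := by
    intro k
    rw [hc]
    refine (char_le χ _).trans (norm_le (by positivity) fun y => ?_)
    have := hb k y.1 _ y.2.2
    have h3 := le_abs_self (M k)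
    change ‖D y.1 k y.2‖ ≤ _
    linarith
  obtain ⟨R, hR⟩ : ∃ R : κ → ℝ, R = fun k => 2 * (|M k| + 1) := ⟨_, rfl⟩
  have hR0 : ∀ k, 0 < R k := by intro k; rw [hR]; positivity
  have hDB : ∀ x k, HB (fun z => (D x k z - c k) * ((R k : ℝ) : ℂ)⁻¹) := by
    intro x k
    refine ⟨((hd k x).sub_const _).mul_const _, fun z hz => ?_⟩
    rw [norm_mul, norm_inv, Complex.norm_real, Real.norm_of_nonneg (hR0 k).le,
      mul_inv_le_iff₀ (hR0 k), one_mul]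
    have h3 := norm_sub_le (D x k z) (c k)
    have h4 := hb k x z hz
    have h5 := le_abs_self (M k)
    have h6 := hM k
    rw [hR]
    linarith
  -- the tuple
  obtain ⟨FF, hFF⟩ : ∃ FF : X → (ι ⊕ κ) → V m → ℂ, FF = fun x o z => o.elim (fun j => F x j z)
      (fun k => (D x k z - c k) * ((R k : ℝ) : ℂ)⁻¹) := ⟨_, rfl⟩
  have hFFB : ∀ x o, HB (FF x o) := by
    rintro x (j | k)
    · rw [hFF]; exact hF x j
    · rw [hFF]; exact hDB x k
  have hEB : ∀ (x : X) (l : Unit), AFF ((fun _ _ => Lo (pt χ) : X → Unit → V m → ℂ) x l) :=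
    fun _ _ => AFF_Lo hp
  have hfin := tube_solv hmv hball he (X := X) (L := Unit) (ι := ι ⊕ κ)
    (E := fun _ _ => Lo (pt χ)) (F := FF) hEB hFFB hδ (by
      intro x z hz
      rw [Fintype.sum_sum_type]
      have h3 : 0 ≤ ∑ l : Unit, ‖(fun _ _ => Lo (pt χ) : X → Unit → V m → ℂ) x l z‖ :=
        Finset.sum_nonneg fun _ _ => norm_nonneg _
      have h4 : 0 ≤ ∑ k : κ, ‖FF x (Sum.inr k) z‖ := Finset.sum_nonneg fun _ _ => norm_nonneg _
      have h5 := hlow x z hz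
      have h6 : ∑ j : ι, ‖FF x (Sum.inl j) z‖ = ∑ j, ‖F x j z‖ := by rw [hFF]; rfl
      linarith) h0 h1 (n := Fintype.card τ)
    (fun x i => ψ x ((Fintype.equivFin τ).symm i)) (fun x i => φ x ((Fintype.equivFin τ).symm i))
    (fun x i => hψ x _) (Finset.univ.map Function.Embedding.inr) ?_ (Sum.inr k₀) (by simp) ?_
  · refine not_solv (F := fun x (o : Unit ⊕ (ι ⊕ κ)) z =>
      o.elim (fun l => (fun _ _ => Lo (pt χ) : X → Unit → V m → ℂ) x l z)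
      (fun j => FF x j z)) ?_ χ univ (by rw [Id_univ, map_one]) ?_ ?_
    · rintro x (l | o)
      · exact HB_Lo hp
      · exact hFFB x o
    · rintro (l | j | k)
      · exact char_Lo χ hp
      · refine Eq.trans (congrArg χ ?_) (hχ j)
        apply ext'
        rintro ⟨x, z⟩
        change FF x (Sum.inl j) z = F x j z
        rw [hFF]
        rfl
      · have h3 : ∀ h : (∀ x, HB (FF x (Sum.inr k))), El (f := fun x => FF x (Sum.inr k)) h =
            ((mk (f := fun x => D x k) (hd k) (hb k) - Cc (c k)) * Cc ((R k : ℝ) : ℂ)⁻¹ :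
              HI X m) := by
          intro h
          apply ext'
          rintro ⟨x, z⟩
          change FF x (Sum.inr k) z = _
          rw [hFF]
          rfl
        refine Eq.trans (congrArg χ (h3 (fun x => hFFB x (Sum.inr k)))) ?_
        rw [map_mul, map_sub, char_Cc, char_Cc]
        have h4 : χ (mk (f := fun x => D x k) (hd k) (hb k)) = c k := by rw [hc]
        rw [h4, sub_self, zero_mul]
    · obtain ⟨C, hC⟩ := hfin
      exact ⟨C, fun x => hC x.1⟩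
  · -- lower bound
    obtain ⟨δ₁, hδ₁, hδ₁R⟩ : ∃ δ₁ : ℝ, 0 < δ₁ ∧ ∀ k, δ₁ * R k ≤ δ' := by
      obtain ⟨k₁, hk₁⟩ := @Finite.exists_max κ _ _ ⟨k₀⟩ _ R
      refine ⟨δ' / R k₁, div_pos hδ' (hR0 _), fun k => ?_⟩
      rw [div_mul_eq_mul_div, div_le_iff₀ (hR0 _)]
      exact mul_le_mul_of_nonneg_left (hk₁ k) hδ'.le
    refine ⟨η ^ 2 / 4, δ₁, by positivity, hδ₁, fun x z hz hout => ?_⟩
    have hzp : ‖z - pt χ‖ < η := by
      by_contra hcon2
      push Not at hcon2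
      have h3 := Lo_ge hp hz.1 hη.le hcon2
      have h4 := hz.2 ()
      change ‖Lo (pt χ) z‖ < η ^ 2 / 4 at h4
      linarith
    obtain ⟨k, hk⟩ := hcon x z hz.1 hzp (fun i hi => by
      have h3 := hout (Fintype.equivFin τ i)
      change φ x ((Fintype.equivFin τ).symm (Fintype.equivFin τ i)) z ∉ Tub e ρ₀ at h3
      rw [Equiv.symm_apply_apply] at h3
      exact h3 (Tub_mono (hρ0 i) (h2 i) he ((hψ x i).m2 hz.1) hi))
    rw [Finset.sum_map]
    have h5 : δ₁ ≤ ‖FF x (Sum.inr k) z‖ := by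
      rw [hFF]
      change δ₁ ≤ ‖(D x k z - c k) * ((R k : ℝ) : ℂ)⁻¹‖
      rw [norm_mul, norm_inv, Complex.norm_real, Real.norm_of_nonneg (hR0 k).le,
        le_mul_inv_iff₀ (hR0 k)]
      refine (hδ₁R k).trans ?_
      rw [hc]
      exact hk
    exact h5.trans (Finset.single_le_sum (f := fun k => ‖FF x (Sum.inr k) z‖)
      (fun _ _ => norm_nonneg _) (Finset.mem_univ k))
  · intro o ho hne
    rw [Finset.mem_map] at ho
    obtain ⟨k, -, rfl⟩ := ho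
    have hk : k ≠ k₀ := fun h => hne (by rw [h]; rfl)
    have h3 := (hT k hk).lip (fun w => (w - c k) * ((R k : ℝ) : ℂ)⁻¹) (R k)⁻¹
      (inv_pos.2 (hR0 k)) (by
        intro a b
        have h4 : (a - c k) * ((R k : ℝ) : ℂ)⁻¹ - (b - c k) * ((R k : ℝ) : ℂ)⁻¹ =
          (a - b) * ((R k : ℝ) : ℂ)⁻¹ := by ring
        rw [h4, norm_mul, norm_inv, Complex.norm_real, Real.norm_of_nonneg (hR0 k).le, mul_comm])
    have h5 : (fun x => FF x (Function.Embedding.inr k)) =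
        fun x z => (D x k z - c k) * ((R k : ℝ) : ℂ)⁻¹ := by rw [hFF]; rfl
    rw [h5]
    exact h3

/-- bounds outside of tubes give bounds of the characters -/
theorem char_tube (hmv : S_mv) (hball : S_ball) {e : V m} (he : ‖e‖ = 1) {ι : Type} [Fintype ι]
    {F : X → ι → V m → ℂ} (hF : ∀ x j, HB (F x j)) {δ : ℝ} (hδ : 0 < δ)
    (hlow : ∀ x, ∀ z ∈ ball (0 : V m) 1, δ ≤ ∑ j, ‖F x j z‖) (χ : characterSpace ℂ (HI X m))
    (hχ : ∀ j, χ (El (f := fun x => F x j) (fun x => hF x j)) = 0) (hp : ‖pt χ‖ = 1)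
    {τ : Type} [Fintype τ] (ψ φ : X → τ → V m → V m) (hψ : ∀ x i, Aut (ψ x i) (φ x i))
    (ρ : τ → ℝ) (hρ0 : ∀ i, 0 ≤ ρ i) (hρ : ∀ i, ρ i < 1) {η C : ℝ} (hη : 0 < η) (u : HI X m)
    (hu : ∀ x, ∀ z : Bt m, ‖(z : V m) - pt χ‖ < η → (∀ i, φ x i z ∉ Tub e (ρ i)) →
      ‖u.1 (x, z)‖ ≤ C) : ‖χ u‖ ≤ C := by
  choose f hf hfu using u.2
  have hb : ∀ x, ∀ z ∈ ball (0 : V m) 1, ‖f x z‖ ≤ ‖u‖ := by
    intro x z hz
    have := le_norm u (x, ⟨z, hz⟩)
    rw [hfu] at this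
    exact this
  have hmk : mk (f := f) hf hb = u := by
    apply ext'
    rintro ⟨x, z⟩
    rw [hfu]
    rfl
  refine le_of_forall_pos_le_add fun ε hε => ?_
  obtain ⟨x, z, hz, hzp, hout, hk⟩ := sep hmv hball he hF hδ hlow χ hχ hp (κ := Unit)
    (fun x _ => f x) (fun _ => hf) (fun _ => ‖u‖) (fun _ => hb) ()
    (fun k hk => absurd (Subsingleton.elim _ _) hk) ψ φ hψ ρ hρ0 hρ hη hε
  have h1 := hk ()
  rw [hmk] at h1
  have h2 := hu x ⟨z, hz⟩ hzp hout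
  rw [hfu] at h2
  change ‖f x z‖ ≤ C at h2
  have h3 := norm_sub_norm_le (χ u) (f x z)
  rw [norm_sub_rev] at h3
  linarith

theorem aeval_pt {σ : Type} (P : MvPolynomial σ ℂ) (a : σ → HI X m) (y : X × Bt m) :
    (MvPolynomial.aeval a P : HI X m).1 y = MvPolynomial.eval (fun o => (a o).1 y) P := by
  induction P using MvPolynomial.induction_on with
  | C c =>
    rw [MvPolynomial.aeval_C, MvPolynomial.eval_C]
    rfl
  | add p q hp hq =>
    rw [map_add, map_add, ← hp, ← hq]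
    rfl
  | mul_X p i hp =>
    rw [map_mul, map_mul, MvPolynomial.aeval_X, MvPolynomial.eval_X, ← hp]
    rfl

theorem aeval_char {σ : Type} (P : MvPolynomial σ ℂ) (a : σ → HI X m)
    (χ : characterSpace ℂ (HI X m)) :
    χ (MvPolynomial.aeval a P) = MvPolynomial.eval (fun o => χ (a o)) P := by
  induction P using MvPolynomial.induction_on with
  | C c =>
    rw [MvPolynomial.aeval_C, MvPolynomial.eval_C]
    exact char_Cc χ c
  | add p q hp hq =>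
    rw [map_add, map_add, hp, hq, map_add]
  | mul_X p i hp =>
    rw [map_mul, map_mul, MvPolynomial.aeval_X, hp, map_mul, MvPolynomial.eval_X]

end alg

theorem exists_pos_le {α : Type} [Finite α] (f : α → ℝ) (h : ∀ a, 0 < f a) :
    ∃ η : ℝ, 0 < η ∧ ∀ a, η ≤ f a := by
  by_cases hα : Nonempty α
  · obtain ⟨a, ha⟩ := Finite.exists_min f
    exact ⟨f a, h a, ha⟩
  · exact ⟨1, one_pos, fun a => absurd ⟨a⟩ hα⟩

theorem eval_near {σ : Type} [Fintype σ] (P : MvPolynomial σ ℂ) (w : σ → ℂ) {ε : ℝ} (hε : 0 < ε) :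
    ∃ δ : ℝ, 0 < δ ∧ ∀ w' : σ → ℂ, (∀ o, ‖w' o - w o‖ < δ) →
      ‖MvPolynomial.eval w' P - MvPolynomial.eval w P‖ < ε := by
  obtain ⟨δ, hδ, h⟩ := Metric.continuousAt_iff.1
    (MvPolynomial.continuous_eval P).continuousAt ε hε
  refine ⟨δ, hδ, fun w' hw => ?_⟩
  have h1 := h (x := w') ((dist_pi_lt_iff hδ).2 fun o => by rw [dist_eq_norm]; exact hw o)
  rwa [dist_eq_norm] at h1

/-- up to `ε`, near `p` and outside of tubes, `f` is a polynomial in `G` and tame functions -/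
def Alg (e p : V m) (ε : ℝ) {X : Type} (G : X → V m → ℂ) (f : X → V m → ℂ) : Prop :=
  ∃ (n L : ℕ) (ψ φ : X → Fin n → V m → V m) (ρ : Fin n → ℝ) (r M : ℝ)
    (h : X → Fin L → V m → ℂ) (P : MvPolynomial (Option (Fin L)) ℂ),
    (∀ i, 0 ≤ ρ i ∧ ρ i < 1) ∧ 0 < r ∧ (∀ x i, Aut (ψ x i) (φ x i)) ∧
    (∀ x l, DifferentiableOn ℂ (h x l) (ball 0 1)) ∧
    (∀ x l, ∀ z ∈ ball (0 : V m) 1, ‖h x l z‖ ≤ M) ∧
    (∀ l, Tame e (X := X) (L := Unit) (fun _ _ => Lo p) (fun x => h x l)) ∧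
    ∀ x, ∀ z ∈ ball (0 : V m) 1, ‖z - p‖ < r → (∀ i, φ x i z ∉ Tub e (ρ i)) →
      ‖f x z - MvPolynomial.eval (fun o => o.elim (G x z) (fun l => h x l z)) P‖ ≤ ε

/-- **Corona theorem for local closed algebras.** -/
theorem final (hmv : S_mv) (hball : S_ball) {e : V m} (he : ‖e‖ = 1) {X ι : Type} [Fintype ι]
    {F : X → ι → V m → ℂ} (hF : ∀ x j, HB (F x j)) {δ : ℝ} (hδ : 0 < δ)
    (hlow : ∀ x, ∀ z ∈ ball (0 : V m) 1, δ ≤ ∑ j, ‖F x j z‖)
    (hloc : ∀ p : V m, ‖p‖ = 1 → ∃ (S : Finset ι) (G : X → V m → ℂ) (R : ℝ) (n : ℕ)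
      (ψ φ : X → Fin n → V m → V m) (ρ : Fin n → ℝ) (r c ε : ℝ), 2 * S.card * ε < c ∧
      (∀ x, DifferentiableOn ℂ (G x) (ball 0 1)) ∧ (∀ x, ∀ z ∈ ball (0 : V m) 1, ‖G x z‖ ≤ R) ∧
      (∀ i, 0 ≤ ρ i ∧ ρ i < 1) ∧ 0 < r ∧ 0 < c ∧ (∀ x i, Aut (ψ x i) (φ x i)) ∧
      (∀ x, ∀ z ∈ ball (0 : V m) 1, ‖z - p‖ < r → (∀ i, φ x i z ∉ Tub e (ρ i)) →
        c ≤ ∑ j ∈ S, ‖F x j z‖) ∧ ∀ j ∈ S, Alg e p ε G (fun x => F x j)) : Solv F := by
  classical
  by_contra hns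
  letI tX : TopologicalSpace X := ⊥
  haveI dX : DiscreteTopology X := ⟨rfl⟩
  obtain ⟨χ, hχ⟩ := exists_zero hF hns
  have hp : ‖pt χ‖ = 1 := by
    rcases lt_or_eq_of_le (pt_norm χ) with h3 | h3
    · exfalso
      have hpt : pt χ ∈ ball (0 : V m) 1 := by rw [mem_ball_zero_iff]; exact h3
      refine char_index (ι := ι) χ (fun o x => F x o (pt χ)) (C := 1)
        (fun o x => (hF x o).2 _ hpt) hδ (fun x => hlow x _ hpt) ?_
      intro o
      have h4 := char_interior χ h3 (El (f := fun x => F x o) (fun x => hF x o))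
      rw [hχ o] at h4
      refine Eq.trans (congrArg χ ?_) h4.symm
      exact ext' fun x => rfl
    · exact h3
  obtain ⟨S, G, R, n, ψ, φ, ρ, r, c, ε, hcε, hG, hGb, hρ, hr, hc, hψ, hS, halg⟩ := hloc _ hp
  have hN0 : (0 : ℝ) ≤ S.card := Nat.cast_nonneg _
  obtain ⟨ε', hε'⟩ : ∃ ε' : ℝ, ε' = (c - 2 * S.card * ε) / (2 * (S.card + 1)) := ⟨_, rfl⟩
  have hε'0 : 0 < ε' := by
    rw [hε']
    exact div_pos (by linarith) (by positivity)
  have hNε : 2 * (S.card + 1) * ε' = c - 2 * S.card * ε := by rw [hε']; field_simp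
  choose nn L ψ' φ' ρ' r' M' h P hρ' hr' hψ' hhd hhb hhT hap using
    fun j : S => halg j.1 j.2
  obtain ⟨a, ha⟩ : ∃ a : ∀ j : S, Option (Fin (L j)) → HI X m, a = fun j o =>
      o.elim (mk (f := G) hG hGb) (fun l => mk (f := fun x => h j x l) (fun x => hhd j x l)
        (fun x => hhb j x l)) := ⟨_, rfl⟩
  have hapt : ∀ (j : S) (x : X) (z : Bt m), (fun o => (a j o).1 (x, z)) =
      fun o : Option (Fin (L j)) => o.elim (G x z) (fun l => h j x l z) := by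
    intro j x z
    funext o
    rw [ha]
    rcases o with _ | l <;> rfl
  -- the values of the polynomials
  have hv : ∀ j : S, ‖MvPolynomial.eval (fun o => χ (a j o)) (P j)‖ ≤ ε := by
    intro j
    have h1 := char_tube hmv hball he hF hδ hlow χ hχ hp (ψ' j) (φ' j) (hψ' j) (ρ' j)
      (fun i => (hρ' j i).1) (fun i => (hρ' j i).2) (hr' j)
      (El (f := fun x => F x j.1) (fun x => hF x j.1) - MvPolynomial.aeval (a j) (P j)) (C := ε)
      (by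
        intro x z hz hout
        have h2 : (El (f := fun x => F x j.1) (fun x => hF x j.1) -
            MvPolynomial.aeval (a j) (P j) : HI X m).1 (x, z) =
            F x j.1 z - (MvPolynomial.aeval (a j) (P j) : HI X m).1 (x, z) := rfl
        rw [h2, aeval_pt, hapt]
        exact hap j x z z.2 hz hout)
    rwa [map_sub, hχ, zero_sub, norm_neg, aeval_char] at h1
  choose δ₁ hδ₁ hev using fun j : S => eval_near (P j) (fun o => χ (a j o)) hε'0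
  obtain ⟨δ₂, hδ₂, hδ₂'⟩ := exists_pos_le δ₁ hδ₁
  obtain ⟨r₂, hr₂, hr₂'⟩ := exists_pos_le r' hr'
  obtain ⟨D, hD⟩ : ∃ D : X → Option (Σ j : S, Fin (L j)) → V m → ℂ,
      D = fun x o => o.elim (G x) (fun s => h s.1 x s.2) := ⟨_, rfl⟩
  obtain ⟨M₀, hM₀⟩ : ∃ M₀ : Option (Σ j : S, Fin (L j)) → ℝ,
      M₀ = fun o => o.elim R (fun s => M' s.1) := ⟨_, rfl⟩
  obtain ⟨Ψ, hΨ⟩ : ∃ Ψ : X → (Fin n ⊕ (Σ j : S, Fin (nn j))) → V m → V m,
      Ψ = fun x o => o.elim (fun i => ψ x i) (fun s => ψ' s.1 x s.2) := ⟨_, rfl⟩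
  obtain ⟨Φ, hΦ⟩ : ∃ Φ : X → (Fin n ⊕ (Σ j : S, Fin (nn j))) → V m → V m,
      Φ = fun x o => o.elim (fun i => φ x i) (fun s => φ' s.1 x s.2) := ⟨_, rfl⟩
  obtain ⟨Rh, hRh⟩ : ∃ Rh : (Fin n ⊕ (Σ j : S, Fin (nn j))) → ℝ,
      Rh = fun o => o.elim (fun i => ρ i) (fun s => ρ' s.1 s.2) := ⟨_, rfl⟩
  have hDd : ∀ k x, DifferentiableOn ℂ (D x k) (ball 0 1) := by
    rw [hD]
    rintro (_ | s) x
    · exact hG x
    · exact hhd s.1 x s.2
  have hDb : ∀ k x, ∀ z ∈ ball (0 : V m) 1, ‖D x k z‖ ≤ M₀ k := by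
    rw [hD, hM₀]
    rintro (_ | s) x z hz
    · exact hGb x z hz
    · exact hhb s.1 x s.2 z hz
  have hDT : ∀ k, k ≠ none →
      Tame e (X := X) (L := Unit) (fun _ _ => Lo (pt χ)) (fun x => D x k) := by
    rw [hD]
    rintro (_ | s) hne
    · exact absurd rfl hne
    · exact hhT s.1 s.2
  have hΨΦ : ∀ x i, Aut (Ψ x i) (Φ x i) := by
    rw [hΨ, hΦ]
    rintro x (i | s)
    · exact hψ x i
    · exact hψ' s.1 x s.2
  have hRh0 : ∀ i, 0 ≤ Rh i ∧ Rh i < 1 := by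
    rw [hRh]
    rintro (i | s)
    · exact hρ i
    · exact hρ' s.1 s.2
  obtain ⟨x, z, hz, hzp, hout, hk⟩ := sep hmv hball he hF hδ hlow χ hχ hp D hDd M₀ hDb none hDT
    Ψ Φ hΨΦ Rh (fun i => (hRh0 i).1) (fun i => (hRh0 i).2) (lt_min hr hr₂) hδ₂
  rw [hΦ, hRh] at hout
  have h1 := hS x z hz (hzp.trans_le (min_le_left _ _)) fun i => hout (Sum.inl i)
  have h2 : ∀ j ∈ S, ‖F x j z‖ ≤ 2 * ε + ε' := by
    intro j hj
    have h3 := hap ⟨j, hj⟩ x z hz ((hzp.trans_le (min_le_right _ _)).trans_le (hr₂' ⟨j, hj⟩))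
      fun i => hout (Sum.inr ⟨⟨j, hj⟩, i⟩)
    have h4 := hev ⟨j, hj⟩ (fun o => o.elim (G x z) (fun l => h ⟨j, hj⟩ x l z)) (by
      rintro (_ | l)
      · refine lt_of_lt_of_le ?_ (hδ₂' ⟨j, hj⟩)
        have h5 := hk none
        simp only [ha]
        simp only [hD] at h5
        exact h5
      · refine lt_of_lt_of_le ?_ (hδ₂' ⟨j, hj⟩)
        have h5 := hk (some ⟨⟨j, hj⟩, l⟩)
        simp only [ha]
        simp only [hD] at h5
        exact h5)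
    have h5 := hv ⟨j, hj⟩
    obtain ⟨A, hA⟩ : ∃ A, A = MvPolynomial.eval (fun o => o.elim (G x z)
      (fun l => h ⟨j, hj⟩ x l z)) (P ⟨j, hj⟩) := ⟨_, rfl⟩
    obtain ⟨B, hB⟩ : ∃ B, B = MvPolynomial.eval (fun o => χ (a ⟨j, hj⟩ o)) (P ⟨j, hj⟩) := ⟨_, rfl⟩
    rw [← hA] at h3
    rw [← hA, ← hB] at h4
    rw [← hB] at h5
    have h6 : F x j z = (F x j z - A) + (A - B) + B := by ring
    rw [h6]
    have h7 := norm_add_le ((F x j z - A) + (A - B)) B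
    have h8 := norm_add_le (F x j z - A) (A - B)
    change ‖F x j z - A‖ ≤ ε at h3
    linarith
  have h3 := Finset.sum_le_sum h2
  rw [Finset.sum_const, nsmul_eq_mul] at h3
  nlinarith

end Pool.Agent.X882.MG
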