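import Mathlib
import Pool.Agent.X882.MG.Final
import Pool.Agent.W732.Cor.All

/-!
Uniform corona theorem for one arbitrary function and functions which are, transversally to complex
geodesics, uniformly continuous under contraction, in particular polynomials of bounded degree.
-/

set_option autoImplicit false

open Metric Set Filter Topology

namespace Pool.Agent.X882.MG

open Pool.Agent.TH310.Cor (V Aut aut_mv HB Solv Lo Lo_ge)
open Pool.Agent.W732.Cor (mv tau S_mv S_ball S_sc2)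

variable {m : ℕ}

/-- families which are uniformly continuous under the contractions towards geodesics are tame -/
theorem tame_contr (hsc : S_sc2) {e : V m} (he : ‖e‖ = 1) {X L : Type} (E : X → L → V m → ℂ)
    {F : X → V m → ℂ} (ψ φ : X → V m → V m) (hψ : ∀ x, Aut (ψ x) (φ x)) (hF : ∀ x, HB (F x))
    (h : ∀ ε : ℝ, 0 < ε → ∃ t : ℝ, 0 ≤ t ∧ t < 1 ∧ ∀ x, ∀ z ∈ ball (0 : V m) 1,
      ‖F x (ψ x z) - F x (ψ x (tau e t z))‖ ≤ ε) : Tame e E F := by
  refine tame_sc e E ψ φ hψ ?_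
  intro q hq heq ε hε
  obtain ⟨t, ht0, ht1, h1⟩ := h (ε / 3) (by positivity)
  obtain ⟨r, hr, h2⟩ := hsc m e he t ht0 ht1 (ε / 3) (by positivity)
  refine ⟨r, hr, fun x a ha z hz w hw hzq hwq => ?_⟩
  have hmve : ∀ z ∈ ball (0 : V m) 1, mv e a z ∈ ball (0 : V m) 1 :=
    fun z hz => (aut_mv Pool.Agent.W721.Cor.Mv.main he ha).m1 hz
  have h3 := h2 (fun z => F x (ψ x z)) ((hF x).1.comp (hψ x).d1 (hψ x).m1)
    (fun z hz => (hF x).2 _ ((hψ x).m1 hz)) q hq heq a ha z hz w hw hzq hwq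
  have h5 := h1 x _ (hmve z hz)
  have h6 := h1 x _ (hmve w hw)
  have h7 : F x (ψ x (mv e a z)) - F x (ψ x (mv e a w)) =
      (F x (ψ x (mv e a z)) - F x (ψ x (tau e t (mv e a z)))) +
      (F x (ψ x (tau e t (mv e a z))) - F x (ψ x (tau e t (mv e a w)))) -
      (F x (ψ x (mv e a w)) - F x (ψ x (tau e t (mv e a w)))) := by ring
  rw [h7]
  have h8 := norm_sub_le ((F x (ψ x (mv e a z)) - F x (ψ x (tau e t (mv e a z)))) +
      (F x (ψ x (tau e t (mv e a z))) - F x (ψ x (tau e t (mv e a w)))))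
      (F x (ψ x (mv e a w)) - F x (ψ x (tau e t (mv e a w))))
  have h9 := norm_add_le (F x (ψ x (mv e a z)) - F x (ψ x (tau e t (mv e a z))))
      (F x (ψ x (tau e t (mv e a z))) - F x (ψ x (tau e t (mv e a w))))
  linarith

/-- a tame family together with one arbitrary family -/
theorem tame_solv (hmv : S_mv) (hball : S_ball) {e : V m} (he : ‖e‖ = 1) {X ι : Type} [Fintype ι]
    {F : X → ι → V m → ℂ} (hF : ∀ x j, HB (F x j)) {δ : ℝ} (hδ : 0 < δ)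
    (hlow : ∀ x, ∀ z ∈ ball (0 : V m) 1, δ ≤ ∑ j, ‖F x j z‖) (j₀ : ι)
    (hT : ∀ j, j ≠ j₀ → Tame e (X := X) (L := Empty) (fun _ l => l.elim) (fun x => F x j)) :
    Solv F := by
  classical
  have h1 := tube_solv hmv hball he (X := X) (L := Empty) (ι := ι) (E := fun _ l => l.elim)
    (F := F) (fun _ l => l.elim) hF hδ (by
      intro x z hz
      have := hlow x z hz
      simpa using this) (le_refl 0) one_pos (n := 0) (fun _ i => i.elim0) (fun _ i => i.elim0)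
    (fun _ i => i.elim0) Finset.univ ⟨1, δ, one_pos, hδ, fun x z hz _ => hlow x z hz.1⟩ j₀
    (Finset.mem_univ _) (fun j _ hj => hT j hj)
  refine h1.mono (fun o => o.elim (fun l => l.elim) id) ?_
  rintro x (l | j) z _
  · exact l.elim
  · rfl

/-- **Uniform constants.** -/
theorem cor_contr (hmv : S_mv) (hball : S_ball) (hsc : S_sc2) (m N : ℕ) {δ κ : ℝ} (hδ : 0 < δ)
    (hκ0 : 0 ≤ κ) (hκ : 2 * (N + 1) * κ < δ) (e : V m) (he : ‖e‖ = 1) (s : ℝ → ℝ)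
    (hs : ∀ ε, 0 < ε → 0 ≤ s ε ∧ s ε < 1) :
    ∃ C : ℝ, ∀ (f : Fin (N + 1) → V m → ℂ) (h : Fin N → V m → ℂ) (ψ φ : Fin N → V m → V m),
      (∀ j, HB (f j)) → (∀ z ∈ ball (0 : V m) 1, δ ≤ ∑ j, ‖f j z‖) →
      (∀ j, DifferentiableOn ℂ (h j) (ball 0 1)) →
      (∀ j : Fin N, ∀ z ∈ ball (0 : V m) 1, ‖f j.succ z - h j z‖ ≤ κ) → (∀ j, Aut (ψ j) (φ j)) →
      (∀ j : Fin N, ∀ ε : ℝ, 0 < ε → ∀ z ∈ ball (0 : V m) 1,
        ‖h j (ψ j z) - h j (ψ j (tau e (s ε) z))‖ ≤ ε) →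
      ∃ g : Fin (N + 1) → V m → ℂ, (∀ j, DifferentiableOn ℂ (g j) (ball 0 1)) ∧
        (∀ j, ∀ z ∈ ball (0 : V m) 1, ‖g j z‖ ≤ C) ∧
        ∀ z ∈ ball (0 : V m) 1, ∑ j, f j z * g j z = 1 := by
  classical
  have key : ∃ X : Type, ∃ (F : X → Fin (N + 1) → V m → ℂ) (H : X → Fin N → V m → ℂ)
      (Ψ Φ : X → Fin N → V m → V m), (∀ x j, HB (F x j)) ∧
      (∀ x, ∀ z ∈ ball (0 : V m) 1, δ ≤ ∑ j, ‖F x j z‖) ∧
      (∀ x j, DifferentiableOn ℂ (H x j) (ball 0 1)) ∧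
      (∀ x, ∀ j : Fin N, ∀ z ∈ ball (0 : V m) 1, ‖F x j.succ z - H x j z‖ ≤ κ) ∧
      (∀ x j, Aut (Ψ x j) (Φ x j)) ∧
      (∀ x, ∀ j : Fin N, ∀ ε : ℝ, 0 < ε → ∀ z ∈ ball (0 : V m) 1,
        ‖H x j (Ψ x j z) - H x j (Ψ x j (tau e (s ε) z))‖ ≤ ε) ∧
      ∀ (f : Fin (N + 1) → V m → ℂ) (h : Fin N → V m → ℂ) (ψ φ : Fin N → V m → V m),
      (∀ j, HB (f j)) → (∀ z ∈ ball (0 : V m) 1, δ ≤ ∑ j, ‖f j z‖) →
      (∀ j, DifferentiableOn ℂ (h j) (ball 0 1)) →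
      (∀ j : Fin N, ∀ z ∈ ball (0 : V m) 1, ‖f j.succ z - h j z‖ ≤ κ) → (∀ j, Aut (ψ j) (φ j)) →
      (∀ j : Fin N, ∀ ε : ℝ, 0 < ε → ∀ z ∈ ball (0 : V m) 1,
        ‖h j (ψ j z) - h j (ψ j (tau e (s ε) z))‖ ≤ ε) → ∃ x, F x = f := by
    refine ⟨{x : (Fin (N + 1) → V m → ℂ) × (Fin N → V m → ℂ) × (Fin N → V m → V m) ×
      (Fin N → V m → V m) // (∀ j, HB (x.1 j)) ∧
      (∀ z ∈ ball (0 : V m) 1, δ ≤ ∑ j, ‖x.1 j z‖) ∧
      (∀ j, DifferentiableOn ℂ (x.2.1 j) (ball 0 1)) ∧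
      (∀ j : Fin N, ∀ z ∈ ball (0 : V m) 1, ‖x.1 j.succ z - x.2.1 j z‖ ≤ κ) ∧
      (∀ j, Aut (x.2.2.1 j) (x.2.2.2 j)) ∧
      (∀ j : Fin N, ∀ ε : ℝ, 0 < ε → ∀ z ∈ ball (0 : V m) 1,
        ‖x.2.1 j (x.2.2.1 j z) - x.2.1 j (x.2.2.1 j (tau e (s ε) z))‖ ≤ ε)},
      fun x => x.1.1, fun x => x.1.2.1, fun x => x.1.2.2.1, fun x => x.1.2.2.2,
      fun x => x.2.1, fun x => x.2.2.1, fun x => x.2.2.2.1, fun x => x.2.2.2.2.1,
      fun x => x.2.2.2.2.2.1, fun x => x.2.2.2.2.2.2, ?_⟩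
    intro f h ψ φ h1 h2 h3 h4 h5 h6
    exact ⟨⟨(f, h, ψ, φ), h1, h2, h3, h4, h5, h6⟩, rfl⟩
  obtain ⟨X, F, H, Ψ, Φ, h1, h2, h3, h4, h5, h6, h7⟩ := key
  have hsolv : Solv F := by
    refine final hmv hball he h1 hδ h2 fun p hp => ?_
    have hH2 : ∀ x j, ∀ z ∈ ball (0 : V m) 1, ‖H x j z‖ ≤ 2 := by
      intro x j z hz
      have a1 := h4 x j z hz
      have a2 := (h1 x j.succ).2 z hz
      have a3 := h2 x z hz
      have a4 : ∑ i, ‖F x i z‖ ≤ ∑ _i : Fin (N + 1), (1 : ℝ) :=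
        Finset.sum_le_sum fun i _ => (h1 x i).2 z hz
      rw [Finset.sum_const, Finset.card_univ, Fintype.card_fin, nsmul_eq_mul, mul_one] at a4
      push_cast at a4
      have a5 : κ ≤ 1 := by
        by_contra hcon
        push Not at hcon
        have hN : (0 : ℝ) ≤ N := Nat.cast_nonneg N
        nlinarith
      have a6 := norm_sub_norm_le (H x j z) (F x j.succ z)
      rw [norm_sub_rev] at a6
      linarith
    have hTame : ∀ j, Tame e (X := X) (L := Unit) (fun _ _ => Lo p) (fun x => H x j) := by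
      intro j
      have b1 : ∀ x, HB (fun z => H x j z * (2 : ℂ)⁻¹) := by
        intro x
        refine ⟨(h3 x j).mul_const _, fun z hz => ?_⟩
        have b2 := hH2 x j z hz
        rw [norm_mul, norm_inv]
        have b3 : ‖(2 : ℂ)‖ = 2 := by norm_num
        rw [b3]
        linarith
      have b2 := tame_contr hsc he (X := X) (L := Unit) (fun _ _ => Lo p)
        (F := fun x z => H x j z * (2 : ℂ)⁻¹) (fun x => Ψ x j) (fun x => Φ x j)
        (fun x => h5 x j) b1 (by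
          intro ε hε
          refine ⟨s ε, (hs ε hε).1, (hs ε hε).2, fun x z hz => ?_⟩
          have b3 := h6 x j ε hε z hz
          rw [← sub_mul, norm_mul, norm_inv]
          have b4 : ‖(2 : ℂ)‖ = 2 := by norm_num
          rw [b4]
          linarith)
      have b3 := b2.lip (fun w => w * 2) 2 two_pos (by
        intro a b
        rw [← sub_mul, norm_mul, mul_comm]
        norm_num)
      have b4 : (fun x z => H x j z * (2 : ℂ)⁻¹ * 2) = fun x => H x j := by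
        funext x z
        ring
      rw [b4] at b3
      exact b3
    refine ⟨Finset.univ, fun x => F x 0, 1, 0, fun _ i => i.elim0, fun _ i => i.elim0,
      fun i => i.elim0, 1, δ, κ, ?_, fun x => (h1 x 0).1, fun x => (h1 x 0).2, fun i => i.elim0,
      one_pos, hδ, fun _ i => i.elim0, fun x z hz _ _ => h2 x z hz, fun j _ => ?_⟩
    · rw [Finset.card_univ, Fintype.card_fin]
      push_cast
      exact hκ
    · refine Fin.cases ?_ (fun j => ?_) j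
      · refine ⟨0, 0, fun _ i => i.elim0, fun _ i => i.elim0, fun i => i.elim0, 1, 1,
          fun _ i => i.elim0, MvPolynomial.X none, fun i => i.elim0, one_pos, fun _ i => i.elim0,
          fun _ i => i.elim0, fun _ i => i.elim0, fun i => i.elim0, fun x z hz _ _ => ?_⟩
        rw [MvPolynomial.eval_X]
        change ‖F x 0 z - F x 0 z‖ ≤ κ
        rw [sub_self, norm_zero]
        exact hκ0
      · refine ⟨0, 1, fun _ i => i.elim0, fun _ i => i.elim0, fun i => i.elim0, 1, 2,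
          fun x _ => H x j, MvPolynomial.X (some 0), fun i => i.elim0, one_pos, fun _ i => i.elim0,
          fun x _ => h3 x j, fun x _ => hH2 x j, fun _ => hTame j, fun x z hz _ _ => ?_⟩
        rw [MvPolynomial.eval_X]
        exact h4 x j z hz
  obtain ⟨C, hC⟩ := hsolv
  refine ⟨C, fun f h ψ φ a1 a2 a3 a4 a5 a6 => ?_⟩
  obtain ⟨x, hx⟩ := h7 f h ψ φ a1 a2 a3 a4 a5 a6
  have := hC x
  rw [hx] at this
  exact this

open Polynomial in
theorem iteratedDeriv_eval (P : ℂ[X]) (k : ℕ) :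
    iteratedDeriv k (fun w => P.eval w) = fun w => (derivative^[k] P).eval w := by
  induction k with
  | zero => rw [iteratedDeriv_zero]; rfl
  | succ k ih =>
    rw [iteratedDeriv_succ, ih, Function.iterate_succ_apply']
    funext w
    exact Polynomial.deriv _

open Polynomial in
/-- the coefficients of a polynomial are bounded by the supremum on the unit circle -/
theorem coeff_le {P : ℂ[X]} {B : ℝ} (h : ∀ w : ℂ, ‖w‖ ≤ 1 → ‖P.eval w‖ ≤ B) (k : ℕ) :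
    ‖P.coeff k‖ ≤ B := by
  have h1 := Complex.norm_iteratedDeriv_le_of_forall_mem_sphere_norm_le k (c := 0) (R := 1)
    (C := B) (f := fun w => P.eval w) one_pos P.differentiable.diffContOnCl (fun w hw => h w (by
      rw [mem_sphere_zero_iff_norm] at hw
      exact hw.le))
  rw [iteratedDeriv_eval] at h1
  simp only [one_pow, div_one, mul_one] at h1
  rw [← Polynomial.coeff_zero_eq_eval_zero, coeff_iterate_derivative, zero_add,
    Nat.descFactorial_self, nsmul_eq_mul, norm_mul, Complex.norm_natCast] at h1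
  have h2 : (0 : ℝ) < (Nat.factorial k : ℝ) := by exact_mod_cast Nat.factorial_pos k
  nlinarith

open Polynomial in
theorem poly_mod {P : ℂ[X]} {d : ℕ} (hd : P.natDegree ≤ d) {B : ℝ}
    (h : ∀ w : ℂ, ‖w‖ ≤ 1 → ‖P.eval w‖ ≤ B) {t : ℝ} (ht0 : 0 ≤ t) (ht1 : t ≤ 1) :
    ‖P.eval 1 - P.eval (t : ℂ)‖ ≤ (d + 1) * (B * (d * (1 - t))) := by
  have hB : 0 ≤ B := (norm_nonneg _).trans (h 0 (by rw [norm_zero]; exact zero_le_one))
  rw [Polynomial.eval_eq_sum_range' (Nat.lt_succ_of_le hd),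
    Polynomial.eval_eq_sum_range' (Nat.lt_succ_of_le hd), ← Finset.sum_sub_distrib]
  refine (norm_sum_le _ _).trans ?_
  have h1 : ∀ k ∈ Finset.range (d + 1),
      ‖P.coeff k * 1 ^ k - P.coeff k * (t : ℂ) ^ k‖ ≤ B * (d * (1 - t)) := by
    intro k hk
    rw [Finset.mem_range] at hk
    have h2 : P.coeff k * 1 ^ k - P.coeff k * (t : ℂ) ^ k =
        P.coeff k * ((1 - t ^ k : ℝ) : ℂ) := by push_cast; ring
    rw [h2, norm_mul, Complex.norm_real]
    have h3 : t ^ k ≤ 1 := pow_le_one₀ ht0 ht1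
    rw [Real.norm_of_nonneg (by linarith)]
    have h4 : 1 - t ^ k ≤ k * (1 - t) := by
      have h5 := one_add_mul_le_pow (a := t - 1) (by linarith) k
      have h6 : (1 + (t - 1)) = t := by ring
      rw [h6] at h5
      linarith
    have h5 : (k : ℝ) ≤ d := by exact_mod_cast Nat.lt_succ_iff.1 hk
    calc ‖P.coeff k‖ * (1 - t ^ k) ≤ B * (k * (1 - t)) :=
          mul_le_mul (coeff_le h k) h4 (by linarith) hB
      _ ≤ B * (d * (1 - t)) := by
          have : 0 ≤ 1 - t := by linarith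
          gcongr
  refine (Finset.sum_le_sum h1).trans (le_of_eq ?_)
  rw [Finset.sum_const, Finset.card_range, nsmul_eq_mul]
  push_cast
  ring

theorem slide_mem {e : V m} (he : ‖e‖ = 1) {z : V m} (hz : z ∈ ball (0 : V m) 1) {w : ℂ}
    (hw : ‖w‖ ≤ 1) :
    (inner ℂ e z : ℂ) • e + w • (z - (inner ℂ e z : ℂ) • e) ∈ ball (0 : V m) 1 := by
  rw [mem_ball_zero_iff] at hz ⊢
  obtain ⟨v, hv⟩ : ∃ v, v = z - (inner ℂ e z : ℂ) • e := ⟨_, rfl⟩
  have h1 : (inner ℂ e v : ℂ) = 0 := by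
    rw [hv, inner_sub_right, inner_smul_right, inner_self_eq_norm_sq_to_K, he]
    simp
  have h2 : z = (inner ℂ e z : ℂ) • e + v := by rw [hv]; abel
  have h3 : (inner ℂ ((inner ℂ e z : ℂ) • e) v : ℂ) = 0 := by rw [inner_smul_left, h1, mul_zero]
  have h4 : (inner ℂ ((inner ℂ e z : ℂ) • e) (w • v) : ℂ) = 0 := by
    rw [inner_smul_right, h3, mul_zero]
  have h5 := norm_add_sq_eq_norm_sq_add_norm_sq_of_inner_eq_zero _ _ h3
  have h6 := norm_add_sq_eq_norm_sq_add_norm_sq_of_inner_eq_zero _ _ h4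
  rw [← h2] at h5
  rw [← hv]
  have h7 : ‖w • v‖ * ‖w • v‖ ≤ ‖v‖ * ‖v‖ := by
    rw [norm_smul]
    have h8 : ‖w‖ * ‖v‖ ≤ ‖v‖ := by
      calc ‖w‖ * ‖v‖ ≤ 1 * ‖v‖ := by gcongr
        _ = ‖v‖ := one_mul _
    exact mul_self_le_mul_self (by positivity) h8
  have h9 : ‖(inner ℂ e z : ℂ) • e + w • v‖ * ‖(inner ℂ e z : ℂ) • e + w • v‖ ≤ ‖z‖ * ‖z‖ := by
    linarith
  exact (abs_le_of_sq_le_sq' (by nlinarith) (norm_nonneg z)).2.trans_lt hz

/-- **Polynomials transversally to geodesics.** -/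
theorem cor_poly (hmv : S_mv) (hball : S_ball) (hsc : S_sc2) (m N d : ℕ) {δ κ : ℝ} (hδ : 0 < δ)
    (hκ0 : 0 ≤ κ) (hκ : 2 * (N + 1) * κ < δ) (e : V m) (he : ‖e‖ = 1) :
    ∃ C : ℝ, ∀ (f : Fin (N + 1) → V m → ℂ) (h : Fin N → V m → ℂ) (ψ φ : Fin N → V m → V m),
      (∀ j, HB (f j)) → (∀ z ∈ ball (0 : V m) 1, δ ≤ ∑ j, ‖f j z‖) →
      (∀ j, DifferentiableOn ℂ (h j) (ball 0 1)) →
      (∀ j : Fin N, ∀ z ∈ ball (0 : V m) 1, ‖f j.succ z - h j z‖ ≤ κ) → (∀ j, Aut (ψ j) (φ j)) →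
      (∀ j : Fin N, ∀ z ∈ ball (0 : V m) 1, ∃ P : Polynomial ℂ, P.natDegree ≤ d ∧
        ∀ w : ℂ, ‖w‖ ≤ 1 →
          h j (ψ j ((inner ℂ e z : ℂ) • e + w • (z - (inner ℂ e z : ℂ) • e))) = P.eval w) →
      ∃ g : Fin (N + 1) → V m → ℂ, (∀ j, DifferentiableOn ℂ (g j) (ball 0 1)) ∧
        (∀ j, ∀ z ∈ ball (0 : V m) 1, ‖g j z‖ ≤ C) ∧
        ∀ z ∈ ball (0 : V m) 1, ∑ j, f j z * g j z = 1 := by
  have hd : (0 : ℝ) < (d + 1) ^ 2 := by positivity
  obtain ⟨C, hC⟩ := cor_contr hmv hball hsc m N hδ hκ0 hκ e he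
    (fun ε => 1 - min 1 (ε / (2 * (d + 1) ^ 2))) (by
    intro ε hε
    have h1 : 0 < min 1 (ε / (2 * ((d : ℝ) + 1) ^ 2)) := lt_min one_pos (by positivity)
    have h2 := min_le_left 1 (ε / (2 * ((d : ℝ) + 1) ^ 2))
    constructor <;> linarith)
  refine ⟨C, fun f h ψ φ hf hlow hh hfh hψ hp => hC f h ψ φ hf hlow hh hfh hψ fun j ε hε z hz => ?_⟩
  obtain ⟨P, hP, hPe⟩ := hp j z hz
  obtain ⟨t, ht⟩ : ∃ t : ℝ, t = 1 - min 1 (ε / (2 * ((d : ℝ) + 1) ^ 2)) := ⟨_, rfl⟩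
  have h1 : 0 < min 1 (ε / (2 * ((d : ℝ) + 1) ^ 2)) := lt_min one_pos (by positivity)
  have h2 := min_le_left 1 (ε / (2 * ((d : ℝ) + 1) ^ 2))
  have h3 := min_le_right 1 (ε / (2 * ((d : ℝ) + 1) ^ 2))
  rw [← ht]
  have ht0 : 0 ≤ t := by rw [ht]; linarith
  have ht1 : t ≤ 1 := by rw [ht]; linarith
  have hκ1 : κ ≤ 1 := by
    have a3 := hlow z hz
    have a4 : ∑ i, ‖f i z‖ ≤ ∑ _i : Fin (N + 1), (1 : ℝ) :=
      Finset.sum_le_sum fun i _ => (hf i).2 z hz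
    rw [Finset.sum_const, Finset.card_univ, Fintype.card_fin, nsmul_eq_mul, mul_one] at a4
    push_cast at a4
    by_contra hcon
    push Not at hcon
    have hN : (0 : ℝ) ≤ N := Nat.cast_nonneg N
    nlinarith
  have hb : ∀ w : ℂ, ‖w‖ ≤ 1 → ‖P.eval w‖ ≤ 2 := by
    intro w hw
    rw [← hPe w hw]
    have c1 := (hψ j).m1 (slide_mem he hz hw)
    have c2 := hfh j _ c1
    have c3 := (hf j.succ).2 _ c1
    have c4 := norm_sub_norm_le (h j (ψ j ((inner ℂ e z : ℂ) • e +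
      w • (z - (inner ℂ e z : ℂ) • e)))) (f j.succ (ψ j ((inner ℂ e z : ℂ) • e +
      w • (z - (inner ℂ e z : ℂ) • e))))
    rw [norm_sub_rev] at c4
    linarith
  have h4 := poly_mod hP hb ht0 ht1
  have h5 := hPe 1 (by rw [norm_one])
  have h6 := hPe (t : ℂ) (by rw [Complex.norm_real, Real.norm_of_nonneg ht0]; exact ht1)
  rw [one_smul, add_sub_cancel] at h5
  rw [← h5, ← h6] at h4
  refine le_trans h4 ?_
  have h7 : 1 - t ≤ ε / (2 * ((d : ℝ) + 1) ^ 2) := by rw [ht]; linarith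
  have h8 : (0 : ℝ) ≤ 1 - t := by linarith
  have h9 : ((d : ℝ) + 1) * (2 * (d * (1 - t))) ≤ 2 * ((d : ℝ) + 1) ^ 2 * (1 - t) := by
    have h10 : (0 : ℝ) ≤ (d : ℝ) + 1 := by positivity
    nlinarith [mul_nonneg h10 h8]
  refine h9.trans ?_
  calc 2 * ((d : ℝ) + 1) ^ 2 * (1 - t)
      ≤ 2 * ((d : ℝ) + 1) ^ 2 * (ε / (2 * ((d : ℝ) + 1) ^ 2)) := by gcongr
    _ = ε := by field_simp

end Pool.Agent.X882.MG
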